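import Mathlib
import Pool.Agent.H.MP_c8cc4c_co.Iface

/-! # MP_c8cc4c_co, part K, file 1: combinatorial maps, orbits of permutations -/

open scoped Classical
open Finset

noncomputable section

namespace Pool.Agent.H.MP_c8cc4c_co

/-- the orbits of a permutation -/
abbrev Orb {D : Type} (p : Equiv.Perm D) : Type := Quotient (Equiv.Perm.SameCycle.setoid p)

/-- the orbit of `d` -/
def orb {D : Type} (p : Equiv.Perm D) (d : D) : Orb p := Quotient.mk _ d

theorem orb_eq {D : Type} {p : Equiv.Perm D} {d d' : D} : orb p d = orb p d' ↔ p.SameCycle d d' :=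
  Quotient.eq

theorem orb_surj {D : Type} (p : Equiv.Perm D) (q : Orb p) : ∃ d, orb p d = q :=
  Quotient.exists_rep q

theorem orb_apply {D : Type} (p : Equiv.Perm D) (d : D) : orb p (p d) = orb p d :=
  orb_eq.2 (Equiv.Perm.sameCycle_apply_left.2 (Equiv.Perm.SameCycle.refl p d))

instance {D : Type} [Finite D] (p : Equiv.Perm D) : Finite (Orb p) := Quotient.finite _

/-- the orbits of an involution -/
theorem sameCycle_invol {D : Type} {α : Equiv.Perm D} (h : ∀ d, α (α d) = d) {d d' : D} :
    α.SameCycle d d' ↔ d' = d ∨ d' = α d := by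
  constructor
  · rintro ⟨n, rfl⟩
    have h2 : α ^ (2 : ℤ) = 1 := by
      ext d
      exact h d
    rcases Int.even_or_odd' n with ⟨k, rfl | rfl⟩
    · left
      rw [zpow_mul, h2, one_zpow, Equiv.Perm.one_apply]
    · right
      rw [zpow_add, zpow_mul, h2, one_zpow, one_mul, zpow_one]
  · rintro (rfl | rfl)
    · exact Equiv.Perm.SameCycle.refl _ _
    · exact Equiv.Perm.sameCycle_apply_right.2 (Equiv.Perm.SameCycle.refl _ _)

/-- combinatorial map: connected, of genus 0 -/
structure CMap where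
  D : Type
  [finD : Fintype D]
  σ : Equiv.Perm D
  α : Equiv.Perm D
  α_inv : ∀ d, α (α d) = d
  α_ne : ∀ d, α d ≠ d
  ne : Nonempty D
  conn : ∀ d d', Relation.ReflTransGen (fun a b => b = σ a ∨ b = α a) d d'
  euler : Nat.card (Orb σ) + Nat.card (Orb (α.trans σ)) = Nat.card (Orb α) + 2

attribute [instance] CMap.finD

namespace CMap

variable (m : CMap)

/-- the permutation around the faces -/
def φ : Equiv.Perm m.D := m.α.trans m.σ

theorem φ_apply (d : m.D) : m.φ d = m.σ (m.α d) := rfl

theorem orbα {d d' : m.D} : orb m.α d = orb m.α d' ↔ d' = d ∨ d' = m.α d := by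
  rw [orb_eq, sameCycle_invol m.α_inv]

theorem orbα_self (d : m.D) : orb m.α (m.α d) = orb m.α d := orb_apply m.α d

theorem orbσ_φ (d : m.D) : orb m.σ (m.φ d) = orb m.σ (m.α d) := orb_apply m.σ (m.α d)

theorem orbσ_self (d : m.D) : orb m.σ (m.σ d) = orb m.σ d := orb_apply m.σ d

theorem orbφ_self (d : m.D) : orb m.φ (m.φ d) = orb m.φ d := orb_apply m.φ d

/-- `φ⁻¹ (σ d) = α d` -/
theorem φ_symm_σ (d : m.D) : m.φ.symm (m.σ d) = m.α d := by
  rw [Equiv.symm_apply_eq, φ_apply, m.α_inv]

theorem σ_eq (d : m.D) : m.σ d = m.φ (m.α d) := by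
  rw [φ_apply, m.α_inv]

/-- every orbit of `α` has two elements -/
theorem card_α : 2 * Nat.card (Orb m.α) = Nat.card m.D := by
  have h1 : Nat.card m.D = ∑ q : Orb m.α, (univ.filter fun d => orb m.α d = q).card := by
    rw [Nat.card_eq_fintype_card, ← Finset.card_univ]
    exact Finset.card_eq_sum_card_fiberwise (f := orb m.α) (t := univ) (fun _ _ => mem_univ _)
  have h2 : ∀ q : Orb m.α, (univ.filter fun d => orb m.α d = q).card = 2 := by
    intro q
    obtain ⟨d, rfl⟩ := orb_surj m.α q
    have h3 : (univ.filter fun d' => orb m.α d' = orb m.α d) = {d, m.α d} := by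
      ext d'
      rw [mem_filter, mem_insert, mem_singleton, eq_comm, m.orbα]
      simp
    rw [h3, card_pair (m.α_ne d).symm]
  rw [h1, sum_congr rfl (fun q _ => h2 q), sum_const, smul_eq_mul, mul_comm, card_univ,
    Nat.card_eq_fintype_card]

end CMap

end Pool.Agent.H.MP_c8cc4c_co
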