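import Mathlib
import Pool.Agent.H.MP_c8cc4c_co.K.Map

/-! # MP_c8cc4c_co, part K, file 2: the ring complex of a combinatorial map

vertices: the points of the map and one ring vertex for every dart; edges: the edges of the map, a spoke and a ring edge
for every dart; faces: one quadrangle for every dart, and the faces of the map (bounded by the rings). -/

open scoped Classical
open Finset

noncomputable section

namespace Pool.Agent.H.MP_c8cc4c_co

variable (m : CMap)

inductive RV (m : CMap) : Type
  | base (q : Orb m.σ) : RV m
  | ring (d : m.D) : RV m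

inductive RE (m : CMap) : Type
  | base (q : Orb m.α) : RE m
  | spoke (d : m.D) : RE m
  | ring (d : m.D) : RE m

inductive RF (m : CMap) : Type
  | quad (d : m.D) : RF m
  | face (q : Orb m.φ) : RF m

/-- the vertices as a sum -/
def RV.eqv : RV m ≃ Orb m.σ ⊕ m.D where
  toFun := fun x => match x with
    | RV.base q => Sum.inl q
    | RV.ring d => Sum.inr d
  invFun := fun x => match x with
    | Sum.inl q => RV.base q
    | Sum.inr d => RV.ring d
  left_inv := fun x => by cases x <;> rfl
  right_inv := fun x => by rcases x with x | x <;> rfl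

def RE.eqv : RE m ≃ Orb m.α ⊕ (m.D ⊕ m.D) where
  toFun := fun x => match x with
    | RE.base q => Sum.inl q
    | RE.spoke d => Sum.inr (Sum.inl d)
    | RE.ring d => Sum.inr (Sum.inr d)
  invFun := fun x => match x with
    | Sum.inl q => RE.base q
    | Sum.inr (Sum.inl d) => RE.spoke d
    | Sum.inr (Sum.inr d) => RE.ring d
  left_inv := fun x => by cases x <;> rfl
  right_inv := fun x => by rcases x with x | x | x <;> rfl

def RF.eqv : RF m ≃ m.D ⊕ Orb m.φ where
  toFun := fun x => match x with
    | RF.quad d => Sum.inl d
    | RF.face q => Sum.inr q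
  invFun := fun x => match x with
    | Sum.inl d => RF.quad d
    | Sum.inr q => RF.face q
  left_inv := fun x => by cases x <;> rfl
  right_inv := fun x => by rcases x with x | x <;> rfl

instance : Finite (RV m) := Finite.of_equiv _ (RV.eqv m).symm
instance : Finite (RE m) := Finite.of_equiv _ (RE.eqv m).symm
instance : Finite (RF m) := Finite.of_equiv _ (RF.eqv m).symm

instance : Fintype (RV m) := Fintype.ofFinite _
instance : Fintype (RE m) := Fintype.ofFinite _
instance : Fintype (RF m) := Fintype.ofFinite _

/-- the ring complex -/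
@[reducible] def RC : PC where
  V := RV m
  E := RE m
  F := RF m
  finV := inferInstance
  finE := inferInstance
  finF := inferInstance
  inc := fun e v => match e, v with
    | RE.base q, RV.base v => ∃ d, orb m.α d = q ∧ orb m.σ d = v
    | RE.spoke d, RV.base v => orb m.σ d = v
    | RE.spoke d, RV.ring r => r = d
    | RE.ring d, RV.ring r => r = d ∨ r = m.φ d
    | _, _ => False
  bd := fun f e => match f, e with
    | RF.quad d, RE.base q => orb m.α d = q
    | RF.quad d, RE.spoke s => s = d ∨ s = m.φ d
    | RF.quad d, RE.ring r => r = d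
    | RF.face c, RE.ring r => orb m.φ r = c
    | _, _ => False

variable {m}

theorem RC_inc_bb {d : m.D} {v : Orb m.σ} : (RC m).inc (RE.base (orb m.α d)) (RV.base v) ↔
    v = orb m.σ d ∨ v = orb m.σ (m.α d) := by
  show (∃ d', orb m.α d' = orb m.α d ∧ orb m.σ d' = v) ↔ _
  constructor
  · rintro ⟨d', h1, rfl⟩
    rcases m.orbα.1 h1.symm with rfl | rfl
    · exact Or.inl rfl
    · exact Or.inr rfl
  · rintro (rfl | rfl)
    · exact ⟨d, rfl, rfl⟩
    · exact ⟨m.α d, m.orbα_self d, rfl⟩

theorem RC_inc_br {q : Orb m.α} {r : m.D} : ¬ (RC m).inc (RE.base q) (RV.ring r) := fun h => h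

theorem RC_inc_sb {d : m.D} {v : Orb m.σ} : (RC m).inc (RE.spoke d) (RV.base v) ↔
    orb m.σ d = v := Iff.rfl

theorem RC_inc_sr {d r : m.D} : (RC m).inc (RE.spoke d) (RV.ring r) ↔ r = d := Iff.rfl

theorem RC_inc_rb {d : m.D} {v : Orb m.σ} : ¬ (RC m).inc (RE.ring d) (RV.base v) := fun h => h

theorem RC_inc_rr {d r : m.D} : (RC m).inc (RE.ring d) (RV.ring r) ↔ r = d ∨ r = m.φ d := Iff.rfl

theorem RC_bd_qb {d : m.D} {q : Orb m.α} : (RC m).bd (RF.quad d) (RE.base q) ↔ orb m.α d = q :=
  Iff.rfl

theorem RC_bd_qs {d s : m.D} : (RC m).bd (RF.quad d) (RE.spoke s) ↔ s = d ∨ s = m.φ d := Iff.rfl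

theorem RC_bd_qr {d r : m.D} : (RC m).bd (RF.quad d) (RE.ring r) ↔ r = d := Iff.rfl

theorem RC_bd_fb {c : Orb m.φ} {q : Orb m.α} : ¬ (RC m).bd (RF.face c) (RE.base q) := fun h => h

theorem RC_bd_fs {c : Orb m.φ} {s : m.D} : ¬ (RC m).bd (RF.face c) (RE.spoke s) := fun h => h

theorem RC_bd_fr {c : Orb m.φ} {r : m.D} : (RC m).bd (RF.face c) (RE.ring r) ↔ orb m.φ r = c :=
  Iff.rfl

/-- no loops -/
def CMap.NoLoop (m : CMap) : Prop := ∀ d, orb m.σ d ≠ orb m.σ (m.α d)

theorem CMap.NoLoop.φ_ne (h : m.NoLoop) (d : m.D) : m.φ d ≠ d := by
  intro h1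
  apply h d
  rw [← m.orbσ_φ, h1]

theorem CMap.NoLoop.φ_symm_ne (h : m.NoLoop) (d : m.D) : m.φ.symm d ≠ d := by
  intro h1
  apply h.φ_ne d
  rw [← h1, Equiv.apply_symm_apply, h1]

theorem RC_inc_two (h : m.NoLoop) (e : (RC m).E) :
    ∃ x y, x ≠ y ∧ ∀ v, (RC m).inc e v ↔ v = x ∨ v = y := by
  cases e with
  | base q =>
    obtain ⟨d, rfl⟩ := orb_surj m.α q
    refine ⟨RV.base (orb m.σ d), RV.base (orb m.σ (m.α d)), ?_, ?_⟩
    · intro hc
      injection hc with hc
      exact h d hc
    · intro v
      cases v with
      | base v => rw [RC_inc_bb, RV.base.injEq, RV.base.injEq]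
      | ring r =>
        constructor
        · intro hc
          exact absurd hc RC_inc_br
        · rintro (hc | hc) <;> cases hc
  | spoke d =>
    refine ⟨RV.base (orb m.σ d), RV.ring d, ?_, ?_⟩
    · intro hc
      cases hc
    · intro v
      cases v with
      | base v =>
        rw [RC_inc_sb, RV.base.injEq]
        constructor
        · intro hc
          exact Or.inl hc.symm
        · rintro (hc | hc)
          · exact hc.symm
          · cases hc
      | ring r =>
        rw [RC_inc_sr, RV.ring.injEq]
        constructor
        · intro hc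
          exact Or.inr hc
        · rintro (hc | hc)
          · cases hc
          · exact hc
  | ring d =>
    refine ⟨RV.ring d, RV.ring (m.φ d), ?_, ?_⟩
    · intro hc
      injection hc with hc
      exact h.φ_ne d hc.symm
    · intro v
      cases v with
      | base v =>
        constructor
        · intro hc
          exact absurd hc RC_inc_rb
        · rintro (hc | hc) <;> cases hc
      | ring r => rw [RC_inc_rr, RV.ring.injEq, RV.ring.injEq]

theorem RC_bd_two (h : m.NoLoop) (e : (RC m).E) :
    ∃ f g, f ≠ g ∧ ∀ k, (RC m).bd k e ↔ k = f ∨ k = g := by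
  cases e with
  | base q =>
    obtain ⟨d, rfl⟩ := orb_surj m.α q
    refine ⟨RF.quad d, RF.quad (m.α d), ?_, ?_⟩
    · intro hc
      injection hc with hc
      exact m.α_ne d hc.symm
    · intro k
      cases k with
      | quad k => rw [RC_bd_qb, eq_comm, m.orbα, RF.quad.injEq, RF.quad.injEq]
      | face c =>
        constructor
        · intro hc
          exact absurd hc RC_bd_fb
        · rintro (hc | hc) <;> cases hc
  | spoke d =>
    refine ⟨RF.quad d, RF.quad (m.φ.symm d), ?_, ?_⟩
    · intro hc
      injection hc with hc
      exact h.φ_symm_ne d hc.symm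
    · intro k
      cases k with
      | quad k =>
        rw [RC_bd_qs, RF.quad.injEq, RF.quad.injEq, Equiv.eq_symm_apply]
        constructor
        · rintro (rfl | hc)
          · exact Or.inl rfl
          · exact Or.inr hc.symm
        · rintro (rfl | hc)
          · exact Or.inl rfl
          · exact Or.inr hc.symm
      | face c =>
        constructor
        · intro hc
          exact absurd hc RC_bd_fs
        · rintro (hc | hc) <;> cases hc
  | ring d =>
    refine ⟨RF.quad d, RF.face (orb m.φ d), ?_, ?_⟩
    · intro hc
      cases hc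
    · intro k
      cases k with
      | quad k =>
        rw [RC_bd_qr, RF.quad.injEq]
        constructor
        · rintro rfl
          exact Or.inl rfl
        · rintro (hc | hc)
          · exact hc.symm
          · cases hc
      | face c =>
        rw [RC_bd_fr, RF.face.injEq]
        constructor
        · intro hc
          exact Or.inr hc.symm
        · rintro (hc | hc)
          · cases hc
          · exact hc.symm

/-- the faces at a base vertex -/
theorem RC_at_qb {k : m.D} {v : Orb m.σ} (h : (RC m).At (RF.quad k) (RV.base v)) :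
    v = orb m.σ k ∨ v = orb m.σ (m.α k) := by
  obtain ⟨e, h1, h2⟩ := h
  cases e with
  | base q =>
    rw [RC_bd_qb] at h1
    subst h1
    exact RC_inc_bb.1 h2
  | spoke s =>
    rw [RC_inc_sb] at h2
    rcases RC_bd_qs.1 h1 with rfl | rfl
    · exact Or.inl h2.symm
    · rw [m.orbσ_φ] at h2
      exact Or.inr h2.symm
  | ring r => exact absurd h2 RC_inc_rb

theorem RC_at_fb {c : Orb m.φ} {v : Orb m.σ} : ¬ (RC m).At (RF.face c) (RV.base v) := by
  rintro ⟨e, h1, h2⟩
  cases e with
  | base q => exact RC_bd_fb h1
  | spoke s => exact RC_bd_fs h1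
  | ring r => exact RC_inc_rb h2

theorem RC_at_qr {k r : m.D} (h : (RC m).At (RF.quad k) (RV.ring r)) : r = k ∨ r = m.φ k := by
  obtain ⟨e, h1, h2⟩ := h
  cases e with
  | base q => exact absurd h2 RC_inc_br
  | spoke s =>
    rw [RC_inc_sr] at h2
    subst h2
    exact RC_bd_qs.1 h1
  | ring s =>
    rw [RC_bd_qr] at h1
    subst h1
    exact RC_inc_rr.1 h2

theorem RC_at_fr {c : Orb m.φ} {r : m.D} (h : (RC m).At (RF.face c) (RV.ring r)) :
    c = orb m.φ r := by
  obtain ⟨e, h1, h2⟩ := h
  cases e with
  | base q => exact absurd h1 RC_bd_fb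
  | spoke s => exact absurd h1 RC_bd_fs
  | ring s =>
    rw [RC_bd_fr] at h1
    rcases RC_inc_rr.1 h2 with rfl | rfl
    · exact h1.symm
    · rw [m.orbφ_self]
      exact h1.symm

theorem RC_face_two (h : m.NoLoop) (f : (RC m).F) (v : (RC m).V) (hfv : (RC m).At f v) :
    ∃ e e', e ≠ e' ∧ ∀ d, ((RC m).bd f d ∧ (RC m).inc d v) ↔ d = e ∨ d = e' := by
  cases f with
  | quad k =>
    cases v with
    | base v =>
      rcases RC_at_qb hfv with rfl | rfl
      · refine ⟨RE.base (orb m.α k), RE.spoke k, (fun hc => by cases hc), ?_⟩
        intro d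
        cases d with
        | base q =>
          rw [RC_bd_qb, RE.base.injEq]
          constructor
          · rintro ⟨h1, -⟩
            exact Or.inl h1.symm
          · rintro (rfl | hc)
            · exact ⟨rfl, RC_inc_bb.2 (Or.inl rfl)⟩
            · cases hc
        | spoke s =>
          rw [RC_bd_qs, RC_inc_sb, RE.spoke.injEq]
          constructor
          · rintro ⟨rfl | rfl, h2⟩
            · exact Or.inr rfl
            · rw [m.orbσ_φ] at h2
              exact absurd h2.symm (h k)
          · rintro (hc | rfl)
            · cases hc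
            · exact ⟨Or.inl rfl, rfl⟩
        | ring r =>
          constructor
          · rintro ⟨-, h2⟩
            exact absurd h2 RC_inc_rb
          · rintro (hc | hc) <;> cases hc
      · refine ⟨RE.base (orb m.α k), RE.spoke (m.φ k), (fun hc => by cases hc), ?_⟩
        intro d
        cases d with
        | base q =>
          rw [RC_bd_qb, RE.base.injEq]
          constructor
          · rintro ⟨h1, -⟩
            exact Or.inl h1.symm
          · rintro (rfl | hc)
            · exact ⟨rfl, RC_inc_bb.2 (Or.inr rfl)⟩
            · cases hc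
        | spoke s =>
          rw [RC_bd_qs, RC_inc_sb, RE.spoke.injEq]
          constructor
          · rintro ⟨rfl | rfl, h2⟩
            · exact absurd h2 (h s)
            · exact Or.inr rfl
          · rintro (hc | rfl)
            · cases hc
            · exact ⟨Or.inr rfl, m.orbσ_φ k⟩
        | ring r =>
          constructor
          · rintro ⟨-, h2⟩
            exact absurd h2 RC_inc_rb
          · rintro (hc | hc) <;> cases hc
    | ring r =>
      rcases RC_at_qr hfv with rfl | rfl
      · refine ⟨RE.spoke r, RE.ring r, (fun hc => by cases hc), ?_⟩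
        intro d
        cases d with
        | base q =>
          constructor
          · rintro ⟨-, h2⟩
            exact absurd h2 RC_inc_br
          · rintro (hc | hc) <;> cases hc
        | spoke s =>
          rw [RC_bd_qs, RC_inc_sr, RE.spoke.injEq]
          constructor
          · rintro ⟨-, h2⟩
            exact Or.inl h2.symm
          · rintro (rfl | hc)
            · exact ⟨Or.inl rfl, rfl⟩
            · cases hc
        | ring s =>
          rw [RC_bd_qr, RC_inc_rr, RE.ring.injEq]
          constructor
          · rintro ⟨h1, -⟩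
            exact Or.inr h1
          · rintro (hc | rfl)
            · cases hc
            · exact ⟨rfl, Or.inl rfl⟩
      · refine ⟨RE.spoke (m.φ k), RE.ring k, (fun hc => by cases hc), ?_⟩
        intro d
        cases d with
        | base q =>
          constructor
          · rintro ⟨-, h2⟩
            exact absurd h2 RC_inc_br
          · rintro (hc | hc) <;> cases hc
        | spoke s =>
          rw [RC_bd_qs, RC_inc_sr, RE.spoke.injEq]
          constructor
          · rintro ⟨-, h2⟩
            exact Or.inl h2.symm
          · rintro (rfl | hc)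
            · exact ⟨Or.inr rfl, rfl⟩
            · cases hc
        | ring s =>
          rw [RC_bd_qr, RC_inc_rr, RE.ring.injEq]
          constructor
          · rintro ⟨h1, -⟩
            exact Or.inr h1
          · rintro (hc | rfl)
            · cases hc
            · exact ⟨rfl, Or.inr rfl⟩
  | face c =>
    cases v with
    | base v => exact absurd hfv RC_at_fb
    | ring r =>
      have hc := RC_at_fr hfv
      subst hc
      refine ⟨RE.ring r, RE.ring (m.φ.symm r), ?_, ?_⟩
      · intro hc
        injection hc with hc
        exact h.φ_symm_ne r hc.symm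
      · intro d
        cases d with
        | base q =>
          constructor
          · rintro ⟨-, h2⟩
            exact absurd h2 RC_inc_br
          · rintro (hc | hc) <;> cases hc
        | spoke s =>
          constructor
          · rintro ⟨h1, -⟩
            exact absurd h1 RC_bd_fs
          · rintro (hc | hc) <;> cases hc
        | ring s =>
          rw [RC_bd_fr, RC_inc_rr, RE.ring.injEq, RE.ring.injEq, Equiv.eq_symm_apply]
          constructor
          · rintro ⟨-, h2 | h2⟩
            · exact Or.inl h2.symm
            · exact Or.inr h2.symm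
          · rintro (rfl | h2)
            · exact ⟨rfl, Or.inl rfl⟩
            · refine ⟨?_, Or.inr h2.symm⟩
              rw [← h2, m.orbφ_self]

theorem RC_face_ne (f : (RC m).F) : ∃ e, (RC m).bd f e := by
  cases f with
  | quad k => exact ⟨RE.ring k, rfl⟩
  | face c =>
    obtain ⟨d, rfl⟩ := orb_surj m.φ c
    exact ⟨RE.ring d, rfl⟩

end Pool.Agent.H.MP_c8cc4c_co
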