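import Mathlib
import Pool.Agent.H.MP_c8cc4c_co.K.RC
import Pool.Agent.H.MP_c8cc4c_co.E.H1Euler

/-! # MP_c8cc4c_co, part K, file 3: the ring complex is a sphere -/

open scoped Classical
open Finset

noncomputable section

namespace Pool.Agent.H.MP_c8cc4c_co

theorem K_zmod2 {a b : ZMod 2} (h : a + b = 0) : a = b := by
  revert h
  revert a b
  decide

theorem K_dF_two {M : PC} {e : M.E} {f g : M.F} (hfg : f ≠ g)
    (h : ∀ k, M.bd k e ↔ k = f ∨ k = g) (c : M.F → ZMod 2) : M.dF c e = c f + c g := by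
  unfold PC.dF
  have h1 : univ.filter (fun k => M.bd k e) = {f, g} := by
    ext k
    rw [mem_filter, mem_insert, mem_singleton, h k]
    simp
  rw [h1, sum_pair hfg]

theorem K_dE_two {M : PC} {z : M.E → ZMod 2} {f : M.F} (hz : ∀ e, z e ≠ 0 → M.bd f e) {v : M.V}
    {e e' : M.E} (hne : e ≠ e') (h : ∀ d, (M.bd f d ∧ M.inc d v) ↔ d = e ∨ d = e')
    (hev : M.Ev z) : z e = z e' := by
  apply K_zmod2
  have h1 := hev v
  unfold PC.dE at h1
  rw [← h1]
  have h2 : ({e, e'} : Finset M.E) ⊆ univ.filter (fun d => M.inc d v) := by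
    intro d hd
    rw [mem_insert, mem_singleton] at hd
    rw [mem_filter]
    exact ⟨mem_univ _, ((h d).2 hd).2⟩
  rw [← sum_subset h2, sum_pair hne]
  intro d hd hd'
  by_contra hc
  apply hd'
  rw [mem_insert, mem_singleton]
  exact (h d).1 ⟨hz d hc, (mem_filter.1 hd).2⟩

/-- the boundary of a face chain is even -/
theorem K_ev_dF {M : PC} (h2 : ∀ f v, M.At f v → ∃ e e', e ≠ e' ∧
    ∀ d, (M.bd f d ∧ M.inc d v) ↔ d = e ∨ d = e') (c : M.F → ZMod 2) : M.Ev (M.dF c) := by
  intro v
  unfold PC.dE PC.dF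
  have h3 : ∑ e ∈ univ.filter (fun e => M.inc e v), ∑ f ∈ univ.filter (fun f => M.bd f e), c f =
      ∑ f, ∑ e ∈ univ.filter (fun e => M.bd f e ∧ M.inc e v), c f := by
    simp only [sum_filter]
    have h4 : ∀ e : M.E, (if M.inc e v then ∑ f, (if M.bd f e then c f else 0) else 0) =
        ∑ f, (if M.bd f e ∧ M.inc e v then c f else 0) := by
      intro e
      by_cases he : M.inc e v <;> simp [he]
    rw [sum_congr rfl (fun e _ => h4 e), sum_comm]
  rw [h3]
  apply sum_eq_zero
  intro f _
  by_cases hf : M.At f v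
  · obtain ⟨e, e', hne, h5⟩ := h2 f v hf
    have h6 : univ.filter (fun d => M.bd f d ∧ M.inc d v) = {e, e'} := by
      ext d
      rw [mem_filter, mem_insert, mem_singleton, h5 d]
      simp
    rw [h6, sum_pair hne]
    exact CharTwo.add_self_eq_zero _
  · have h6 : univ.filter (fun d => M.bd f d ∧ M.inc d v) = ∅ := by
      rw [filter_eq_empty_iff]
      intro d _ hd
      exact hf ⟨d, hd.1, hd.2⟩
    rw [h6, sum_empty]

variable {m : CMap}

/-- walks in the ring complex -/
def RCn (m : CMap) (x y : (RC m).V) : Prop := ∃ n, Near (RC m).graph Set.univ n x y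

theorem RCn_refl (x : (RC m).V) : RCn m x x := ⟨0, SimpleGraph.Walk.nil, le_refl _, fun _ _ => trivial⟩

theorem RCn_trans {x y z : (RC m).V} (h : RCn m x y) (h' : RCn m y z) : RCn m x z := by
  obtain ⟨n, p, hp, -⟩ := h
  obtain ⟨n', p', hp', -⟩ := h'
  refine ⟨n + n', p.append p', ?_, fun _ _ => trivial⟩
  rw [SimpleGraph.Walk.length_append]
  omega

theorem RCn_symm {x y : (RC m).V} (h : RCn m x y) : RCn m y x := by
  obtain ⟨n, p, hp, -⟩ := h
  refine ⟨n, p.reverse, ?_, fun _ _ => trivial⟩
  rw [SimpleGraph.Walk.length_reverse]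
  exact hp

theorem RCn_edge {e : (RC m).E} {x y : (RC m).V} (hx : (RC m).inc e x) (hy : (RC m).inc e y) :
    RCn m x y := by
  by_cases hxy : x = y
  · rw [hxy]
    exact RCn_refl y
  · have h : (RC m).graph.Adj x y := ⟨hxy, e, hx, hy⟩
    exact ⟨1, h.toWalk, by simp, fun _ _ => trivial⟩

theorem RCn_base (d d' : m.D) : RCn m (RV.base (orb m.σ d)) (RV.base (orb m.σ d')) := by
  have h1 := m.conn d d'
  induction h1 with
  | refl => exact RCn_refl _
  | @tail a b hp hstep ih =>
    refine RCn_trans ih ?_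
    rcases hstep with rfl | rfl
    · rw [m.orbσ_self]
      exact RCn_refl _
    · exact RCn_edge (e := RE.base (orb m.α a)) (RC_inc_bb.2 (Or.inl rfl))
        (RC_inc_bb.2 (Or.inr rfl))

theorem RCn_ring (d : m.D) : RCn m (RV.ring d) (RV.base (orb m.σ d)) :=
  RCn_edge (e := RE.spoke d) (RC_inc_sr.2 rfl) (RC_inc_sb.2 rfl)

theorem RC_conn (x y : (RC m).V) : ∃ n, Near (RC m).graph Set.univ n x y := by
  have key : ∀ x : (RC m).V, ∃ d, RCn m x (RV.base (orb m.σ d)) := by
    intro x
    cases x with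
    | base v =>
      obtain ⟨d, rfl⟩ := orb_surj m.σ v
      exact ⟨d, RCn_refl _⟩
    | ring r => exact ⟨r, RCn_ring r⟩
  obtain ⟨d, hd⟩ := key x
  obtain ⟨d', hd'⟩ := key y
  exact RCn_trans (RCn_trans hd (RCn_base d d')) (RCn_symm hd')

theorem RC_dF_base (c : (RC m).F → ZMod 2) (d : m.D) :
    (RC m).dF c (RE.base (orb m.α d)) = c (RF.quad d) + c (RF.quad (m.α d)) := by
  refine K_dF_two ?_ ?_ c
  · intro hc
    injection hc with hc
    exact m.α_ne d hc.symm
  · intro k
    cases k with
    | quad k => rw [RC_bd_qb, eq_comm, m.orbα, RF.quad.injEq, RF.quad.injEq]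
    | face c =>
      constructor
      · intro hc
        exact absurd hc RC_bd_fb
      · rintro (hc | hc) <;> cases hc

theorem RC_dF_spoke (h : m.NoLoop) (c : (RC m).F → ZMod 2) (d : m.D) :
    (RC m).dF c (RE.spoke d) = c (RF.quad d) + c (RF.quad (m.φ.symm d)) := by
  refine K_dF_two ?_ ?_ c
  · intro hc
    injection hc with hc
    exact h.φ_symm_ne d hc.symm
  · intro k
    cases k with
    | quad k =>
      rw [RC_bd_qs, RF.quad.injEq, RF.quad.injEq, Equiv.eq_symm_apply]
      constructor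
      · rintro (rfl | hc)
        · exact Or.inl rfl
        · exact Or.inr hc.symm
      · rintro (rfl | hc)
        · exact Or.inl rfl
        · exact Or.inr hc.symm
    | face c =>
      constructor
      · intro hc
        exact absurd hc RC_bd_fs
      · rintro (hc | hc) <;> cases hc

theorem RC_dF_ring (c : (RC m).F → ZMod 2) (d : m.D) :
    (RC m).dF c (RE.ring d) = c (RF.quad d) + c (RF.face (orb m.φ d)) := by
  refine K_dF_two ?_ ?_ c
  · intro hc
    cases hc
  · intro k
    cases k with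
    | quad k =>
      rw [RC_bd_qr, RF.quad.injEq]
      constructor
      · rintro rfl
        exact Or.inl rfl
      · rintro (hc | hc)
        · exact hc.symm
        · cases hc
    | face c =>
      rw [RC_bd_fr, RF.face.injEq]
      constructor
      · intro hc
        exact Or.inr hc.symm
      · rintro (hc | hc)
        · cases hc
        · exact hc.symm

theorem RC_face_cyc (h : m.NoLoop) (f : (RC m).F) (z : (RC m).E → ZMod 2) (hz : (RC m).Ev z)
    (hs : ∀ e, z e ≠ 0 → (RC m).bd f e) : z = 0 ∨ ∀ e, (RC m).bd f e → z e ≠ 0 := by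
  have key : ∀ v, (RC m).At f v → ∀ e e', (RC m).bd f e → (RC m).inc e v → (RC m).bd f e' →
      (RC m).inc e' v → z e = z e' := by
    intro v hv e e' h1 h2 h3 h4
    obtain ⟨a, b, hab, hd⟩ := RC_face_two h f v hv
    have h5 := K_dE_two hs hab hd hz
    rcases (hd e).1 ⟨h1, h2⟩ with rfl | rfl <;> rcases (hd e').1 ⟨h3, h4⟩ with rfl | rfl
    · rfl
    · exact h5
    · exact h5.symm
    · rfl
  cases f with
  | quad k =>
    have b1 : (RC m).bd (RF.quad k) (RE.base (orb m.α k)) := RC_bd_qb.2 rfl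
    have b2 : (RC m).bd (RF.quad k) (RE.spoke k) := RC_bd_qs.2 (Or.inl rfl)
    have b3 : (RC m).bd (RF.quad k) (RE.spoke (m.φ k)) := RC_bd_qs.2 (Or.inr rfl)
    have b4 : (RC m).bd (RF.quad k) (RE.ring k) := RC_bd_qr.2 rfl
    have e1 : z (RE.base (orb m.α k)) = z (RE.spoke k) :=
      key (RV.base (orb m.σ k)) ⟨_, b2, RC_inc_sb.2 rfl⟩ _ _ b1 (RC_inc_bb.2 (Or.inl rfl)) b2
        (RC_inc_sb.2 rfl)
    have e2 : z (RE.spoke k) = z (RE.ring k) :=
      key (RV.ring k) ⟨_, b2, RC_inc_sr.2 rfl⟩ _ _ b2 (RC_inc_sr.2 rfl) b4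
        (RC_inc_rr.2 (Or.inl rfl))
    have e3 : z (RE.spoke (m.φ k)) = z (RE.ring k) :=
      key (RV.ring (m.φ k)) ⟨_, b3, RC_inc_sr.2 rfl⟩ _ _ b3 (RC_inc_sr.2 rfl) b4
        (RC_inc_rr.2 (Or.inr rfl))
    have hall : ∀ e, (RC m).bd (RF.quad k) e → z e = z (RE.ring k) := by
      intro e he
      cases e with
      | base q =>
        rw [RC_bd_qb] at he
        subst he
        rw [e1, e2]
      | spoke s =>
        rcases RC_bd_qs.1 he with rfl | rfl
        · exact e2
        · exact e3
      | ring r =>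
        rw [RC_bd_qr] at he
        subst he
        rfl
    by_cases h0 : z (RE.ring k) = 0
    · left
      funext e
      by_contra hc
      have h1 := hall e (hs e hc)
      rw [h0] at h1
      exact hc h1
    · right
      intro e he
      rw [hall e he]
      exact h0
  | face c =>
    obtain ⟨r0, rfl⟩ := orb_surj m.φ c
    have hstep : ∀ r, orb m.φ r = orb m.φ r0 → z (RE.ring (m.φ r)) = z (RE.ring r) := by
      intro r hr
      have b1 : (RC m).bd (RF.face (orb m.φ r0)) (RE.ring r) := RC_bd_fr.2 hr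
      have b2 : (RC m).bd (RF.face (orb m.φ r0)) (RE.ring (m.φ r)) := by
        rw [RC_bd_fr, m.orbφ_self]
        exact hr
      exact key (RV.ring (m.φ r)) ⟨_, b2, RC_inc_rr.2 (Or.inl rfl)⟩ _ _ b2
        (RC_inc_rr.2 (Or.inl rfl)) b1 (RC_inc_rr.2 (Or.inr rfl))
    have hpow : ∀ n : ℕ, z (RE.ring ((m.φ ^ n) r0)) = z (RE.ring r0) ∧
        orb m.φ ((m.φ ^ n) r0) = orb m.φ r0 := by
      intro n
      induction n with
      | zero => exact ⟨rfl, rfl⟩
      | succ n ih =>
        rw [pow_succ', Equiv.Perm.mul_apply]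
        exact ⟨(hstep _ ih.2).trans ih.1, (m.orbφ_self _).trans ih.2⟩
    have hall : ∀ e, (RC m).bd (RF.face (orb m.φ r0)) e → z e = z (RE.ring r0) := by
      intro e he
      cases e with
      | base q => exact absurd he RC_bd_fb
      | spoke s => exact absurd he RC_bd_fs
      | ring r =>
        rw [RC_bd_fr] at he
        obtain ⟨n, hn⟩ := (orb_eq.1 he.symm).exists_nat_pow_eq
        rw [← hn]
        exact (hpow n).1
    by_cases h0 : z (RE.ring r0) = 0
    · left
      funext e
      by_contra hc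
      have h1 := hall e (hs e hc)
      rw [h0] at h1
      exact hc h1
    · right
      intro e he
      rw [hall e he]
      exact h0

theorem RC_star (h : m.NoLoop) (v : (RC m).V) (c : (RC m).F → ZMod 2)
    (hc : ∀ e, (RC m).inc e v → (RC m).dF c e = 0) (f g : (RC m).F) (hf : (RC m).At f v)
    (hg : (RC m).At g v) : c f = c g := by
  cases v with
  | base v =>
    obtain ⟨d0, rfl⟩ := orb_surj m.σ v
    have hα : ∀ d, orb m.σ d = orb m.σ d0 → c (RF.quad d) = c (RF.quad (m.α d)) := by
      intro d hd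
      have h1 := hc (RE.base (orb m.α d)) (RC_inc_bb.2 (Or.inl hd.symm))
      rw [RC_dF_base] at h1
      exact K_zmod2 h1
    have hσ : ∀ d, orb m.σ d = orb m.σ d0 → c (RF.quad (m.σ d)) = c (RF.quad d) := by
      intro d hd
      have h1 := hc (RE.spoke (m.σ d)) (RC_inc_sb.2 ((m.orbσ_self d).trans hd))
      rw [RC_dF_spoke h, m.φ_symm_σ] at h1
      exact (K_zmod2 h1).trans (hα d hd).symm
    have hpow : ∀ n : ℕ, c (RF.quad ((m.σ ^ n) d0)) = c (RF.quad d0) ∧
        orb m.σ ((m.σ ^ n) d0) = orb m.σ d0 := by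
      intro n
      induction n with
      | zero => exact ⟨rfl, rfl⟩
      | succ n ih =>
        rw [pow_succ', Equiv.Perm.mul_apply]
        exact ⟨(hσ _ ih.2).trans ih.1, (m.orbσ_self _).trans ih.2⟩
    have hall : ∀ d, orb m.σ d = orb m.σ d0 → c (RF.quad d) = c (RF.quad d0) := by
      intro d hd
      obtain ⟨n, hn⟩ := (orb_eq.1 hd.symm).exists_nat_pow_eq
      rw [← hn]
      exact (hpow n).1
    have key : ∀ f : (RC m).F, (RC m).At f (RV.base (orb m.σ d0)) → c f = c (RF.quad d0) := by
      intro f hf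
      cases f with
      | quad k =>
        rcases RC_at_qb hf with h1 | h1
        · exact hall k h1.symm
        · have h2 := hα (m.α k) h1.symm
          rw [m.α_inv] at h2
          rw [← h2]
          exact hall _ h1.symm
      | face q => exact absurd hf RC_at_fb
    rw [key f hf, key g hg]
  | ring r =>
    have h1 := hc (RE.spoke r) (RC_inc_sr.2 rfl)
    have h2 := hc (RE.ring r) (RC_inc_rr.2 (Or.inl rfl))
    rw [RC_dF_spoke h] at h1
    rw [RC_dF_ring] at h2
    have key : ∀ f : (RC m).F, (RC m).At f (RV.ring r) → c f = c (RF.quad r) := by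
      intro f hf
      cases f with
      | quad k =>
        rcases RC_at_qr hf with rfl | rfl
        · rfl
        · rw [Equiv.symm_apply_apply] at h1
          exact (K_zmod2 h1).symm
      | face q =>
        rw [RC_at_fr hf]
        exact (K_zmod2 h2).symm
    rw [key f hf, key g hg]

theorem RC_card_V : @Fintype.card (RC m).V (RC m).finV = Nat.card (Orb m.σ) + Nat.card m.D := by
  rw [← @Nat.card_eq_fintype_card _ (RC m).finV, ← Nat.card_sum]
  exact Nat.card_congr (RV.eqv m)

theorem RC_card_E : @Fintype.card (RC m).E (RC m).finE =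
    Nat.card (Orb m.α) + (Nat.card m.D + Nat.card m.D) := by
  rw [← @Nat.card_eq_fintype_card _ (RC m).finE, ← Nat.card_sum, ← Nat.card_sum]
  exact Nat.card_congr (RE.eqv m)

theorem RC_card_F : @Fintype.card (RC m).F (RC m).finF = Nat.card m.D + Nat.card (Orb m.φ) := by
  rw [← @Nat.card_eq_fintype_card _ (RC m).finF, ← Nat.card_sum]
  exact Nat.card_congr (RF.eqv m)

theorem RC_const (h : m.NoLoop) (c : (RC m).F → ZMod 2) (hc : (RC m).dF c = 0)
    (f g : (RC m).F) : c f = c g := by
  have hα : ∀ d, c (RF.quad (m.α d)) = c (RF.quad d) := by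
    intro d
    have h1 := congrFun hc (RE.base (orb m.α d))
    rw [RC_dF_base] at h1
    exact (K_zmod2 h1).symm
  have hσ : ∀ d, c (RF.quad (m.σ d)) = c (RF.quad d) := by
    intro d
    have h1 := congrFun hc (RE.spoke (m.σ d))
    rw [RC_dF_spoke h, m.φ_symm_σ] at h1
    exact (K_zmod2 h1).trans (hα d)
  have hall : ∀ d d', c (RF.quad d') = c (RF.quad d) := by
    intro d d'
    have h1 := m.conn d d'
    induction h1 with
    | refl => rfl
    | @tail a b hp hstep ih =>
      rcases hstep with rfl | rfl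
      · exact (hσ a).trans ih
      · exact (hα a).trans ih
  obtain ⟨d0⟩ := m.ne
  have key : ∀ f : (RC m).F, c f = c (RF.quad d0) := by
    intro f
    cases f with
    | quad k => exact hall d0 k
    | face q =>
      obtain ⟨r, rfl⟩ := orb_surj m.φ q
      have h1 := congrFun hc (RE.ring r)
      rw [RC_dF_ring] at h1
      rw [← K_zmod2 h1]
      exact hall d0 r
  rw [key f, key g]

/-- **The ring complex is a sphere** -/
theorem RC_sphere (h : m.NoLoop) : (RC m).IsSphere where
  inc_two := RC_inc_two h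
  bd_two := RC_bd_two h
  face_two := RC_face_two h
  face_ne := RC_face_ne
  face_cyc := RC_face_cyc h
  conn := RC_conn
  nonempty := ⟨RV.ring m.ne.some⟩
  star := RC_star h
  h1 := by
    refine (h1_euler (RC m) (RC_inc_two h) (K_ev_dF (RC_face_two h)) ?_ RC_conn
      ⟨RV.ring m.ne.some⟩ ⟨RF.quad m.ne.some⟩ (RC_const h)).2 ?_
    · funext e
      obtain ⟨f, g, hfg, hb⟩ := RC_bd_two h e
      rw [K_dF_two hfg hb]
      exact CharTwo.add_self_eq_zero _
    · rw [RC_card_V, RC_card_E, RC_card_F]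
      have h1 := m.card_α
      have h2 := m.euler
      have h3 : Nat.card (Orb (m.α.trans m.σ)) = Nat.card (Orb m.φ) := rfl
      omega

end Pool.Agent.H.MP_c8cc4c_co
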