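import Mathlib
import Pool.Agent.H.MP_c8cc4c_co.K.RC

/-! # MP_c8cc4c_co, part K, file 4: subdivision of a combinatorial map

`(d, false)`: the first half of the dart `d`; `(d, true)`: the dart from the midpoint of the edge along `d`. -/

open scoped Classical
open Finset

noncomputable section

namespace Pool.Agent.H.MP_c8cc4c_co

variable (m : CMap)

/-- rotation of the subdivided map -/
def subσ : Equiv.Perm (m.D × Bool) where
  toFun := fun x => match x with
    | (d, false) => (m.σ d, false)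
    | (d, true) => (m.α d, true)
  invFun := fun x => match x with
    | (d, false) => (m.σ.symm d, false)
    | (d, true) => (m.α d, true)
  left_inv := fun x => by
    rcases x with ⟨d, _ | _⟩
    · exact Prod.ext (m.σ.symm_apply_apply d) rfl
    · exact Prod.ext (m.α_inv d) rfl
  right_inv := fun x => by
    rcases x with ⟨d, _ | _⟩
    · exact Prod.ext (m.σ.apply_symm_apply d) rfl
    · exact Prod.ext (m.α_inv d) rfl

def subα : Equiv.Perm (m.D × Bool) where
  toFun := fun x => (m.α x.1, !x.2)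
  invFun := fun x => (m.α x.1, !x.2)
  left_inv := fun x => Prod.ext (m.α_inv x.1) (Bool.not_not x.2)
  right_inv := fun x => Prod.ext (m.α_inv x.1) (Bool.not_not x.2)

theorem subσ_f (d : m.D) : subσ m (d, false) = (m.σ d, false) := rfl
theorem subσ_t (d : m.D) : subσ m (d, true) = (m.α d, true) := rfl
theorem subα_apply (d : m.D) (b : Bool) : subα m (d, b) = (m.α d, !b) := rfl

theorem subφ_f (d : m.D) : ((subα m).trans (subσ m)) (d, false) = (d, true) := by
  show subσ m (m.α d, true) = _
  rw [subσ_t, m.α_inv]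

theorem subφ_t (d : m.D) : ((subα m).trans (subσ m)) (d, true) = (m.φ d, false) := rfl

theorem subα_inv (x : m.D × Bool) : subα m (subα m x) = x := (subα m).symm_apply_apply x

theorem subα_ne (x : m.D × Bool) : subα m x ≠ x := by
  intro h
  have h1 := congrArg Prod.fst h
  exact m.α_ne x.1 h1

/-- powers of the rotation -/
theorem subσ_zpow_f (n : ℤ) (d : m.D) : ((subσ m) ^ n) (d, false) = ((m.σ ^ n) d, false) := by
  have key : ∀ (n : ℕ) (d : m.D), ((subσ m) ^ n) (d, false) = ((m.σ ^ n) d, false) := by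
    intro n
    induction n with
    | zero => intro d; rfl
    | succ n ih =>
      intro d
      rw [pow_succ, Equiv.Perm.mul_apply, subσ_f, ih, pow_succ, Equiv.Perm.mul_apply]
  rcases Int.le_total 0 n with hn | hn
  · lift n to ℕ using hn
    rw [zpow_natCast, zpow_natCast]
    exact key n d
  · obtain ⟨k, rfl⟩ : ∃ k : ℕ, n = -(k : ℤ) := ⟨n.natAbs, by omega⟩
    rw [zpow_neg, zpow_neg, zpow_natCast, zpow_natCast, Equiv.Perm.inv_eq_iff_eq, key]
    rw [← Equiv.Perm.mul_apply, mul_inv_cancel, Equiv.Perm.one_apply]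

theorem subσ_zpow_t (n : ℤ) (d : m.D) : ((subσ m) ^ n) (d, true) = ((m.α ^ n) d, true) := by
  have key : ∀ (n : ℕ) (d : m.D), ((subσ m) ^ n) (d, true) = ((m.α ^ n) d, true) := by
    intro n
    induction n with
    | zero => intro d; rfl
    | succ n ih =>
      intro d
      rw [pow_succ, Equiv.Perm.mul_apply, subσ_t, ih, pow_succ, Equiv.Perm.mul_apply]
  rcases Int.le_total 0 n with hn | hn
  · lift n to ℕ using hn
    rw [zpow_natCast, zpow_natCast]
    exact key n d
  · obtain ⟨k, rfl⟩ : ∃ k : ℕ, n = -(k : ℤ) := ⟨n.natAbs, by omega⟩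
    rw [zpow_neg, zpow_neg, zpow_natCast, zpow_natCast, Equiv.Perm.inv_eq_iff_eq, key]
    rw [← Equiv.Perm.mul_apply, mul_inv_cancel, Equiv.Perm.one_apply]

theorem sub_scσ_f {d d' : m.D} : (subσ m).SameCycle (d, false) (d', false) ↔
    m.σ.SameCycle d d' := by
  constructor
  · rintro ⟨n, hn⟩
    rw [subσ_zpow_f] at hn
    exact ⟨n, congrArg Prod.fst hn⟩
  · rintro ⟨n, hn⟩
    exact ⟨n, by rw [subσ_zpow_f, hn]⟩

theorem sub_scσ_t {d d' : m.D} : (subσ m).SameCycle (d, true) (d', true) ↔
    m.α.SameCycle d d' := by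
  constructor
  · rintro ⟨n, hn⟩
    rw [subσ_zpow_t] at hn
    exact ⟨n, congrArg Prod.fst hn⟩
  · rintro ⟨n, hn⟩
    exact ⟨n, by rw [subσ_zpow_t, hn]⟩

theorem sub_scσ_snd {x y : m.D × Bool} (h : (subσ m).SameCycle x y) : x.2 = y.2 := by
  obtain ⟨n, rfl⟩ := h
  rcases x with ⟨d, _ | _⟩
  · rw [subσ_zpow_f]
  · rw [subσ_zpow_t]

/-- the vertices of the subdivided map -/
def subσ_eqv : Orb (subσ m) ≃ Orb m.σ ⊕ Orb m.α where
  toFun := Quotient.lift (fun x : m.D × Bool =>
    if x.2 = false then Sum.inl (orb m.σ x.1) else Sum.inr (orb m.α x.1)) (by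
      rintro ⟨d, b⟩ ⟨d', b'⟩ h
      have h' : (subσ m).SameCycle (d, b) (d', b') := h
      have h2 : b = b' := sub_scσ_snd m h'
      subst h2
      cases b
      · simp only [if_true]
        rw [orb_eq.2 ((sub_scσ_f m).1 h')]
      · simp only [Bool.true_eq_false, if_false]
        rw [orb_eq.2 ((sub_scσ_t m).1 h')])
  invFun := Sum.elim
    (Quotient.lift (fun d => orb (subσ m) (d, false)) (fun d d' h => orb_eq.2 ((sub_scσ_f m).2 h)))
    (Quotient.lift (fun d => orb (subσ m) (d, true)) (fun d d' h => orb_eq.2 ((sub_scσ_t m).2 h)))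
  left_inv := fun q => by
    obtain ⟨⟨d, b⟩, rfl⟩ := orb_surj _ q
    cases b <;> rfl
  right_inv := fun q => by
    rcases q with q | q
    · obtain ⟨d, rfl⟩ := orb_surj _ q
      rfl
    · obtain ⟨d, rfl⟩ := orb_surj _ q
      rfl

theorem subφ_sq (n : ℕ) (d : m.D) :
    (((subα m).trans (subσ m)) ^ (2 * n)) (d, false) = ((m.φ ^ n) d, false) := by
  induction n generalizing d with
  | zero => rfl
  | succ n ih =>
    have h1 : 2 * (n + 1) = 2 * n + 1 + 1 := by ring
    rw [h1, pow_succ, pow_succ, Equiv.Perm.mul_apply, Equiv.Perm.mul_apply, subφ_f, subφ_t, ih,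
      pow_succ, Equiv.Perm.mul_apply]

theorem subφ_sq_t (n : ℕ) (d : m.D) :
    (((subα m).trans (subσ m)) ^ (2 * n)) (d, true) = ((m.φ ^ n) d, true) := by
  have h1 : (d, true) = ((subα m).trans (subσ m)) (d, false) := (subφ_f m d).symm
  rw [h1, ← Equiv.Perm.mul_apply, ← pow_succ, pow_succ', Equiv.Perm.mul_apply, subφ_sq, subφ_f]

theorem sub_scφ {d d' : m.D} :
    Equiv.Perm.SameCycle ((subα m).trans (subσ m)) (d, false) (d', false) ↔
    m.φ.SameCycle d d' := by
  constructor
  · intro h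
    obtain ⟨n, hn⟩ := h.exists_nat_pow_eq
    rcases Nat.even_or_odd' n with ⟨k, rfl | rfl⟩
    · rw [subφ_sq] at hn
      exact ⟨k, by rw [zpow_natCast]; exact congrArg Prod.fst hn⟩
    · rw [pow_succ', Equiv.Perm.mul_apply, subφ_sq, subφ_f] at hn
      have h2 := congrArg Prod.snd hn
      simp at h2
  · intro h
    obtain ⟨n, hn⟩ := h.exists_nat_pow_eq
    refine ⟨((2 * n : ℕ) : ℤ), ?_⟩
    rw [zpow_natCast, subφ_sq, hn]

/-- the faces of the subdivided map -/
theorem subφ_card : Nat.card (Orb ((subα m).trans (subσ m))) = Nat.card (Orb m.φ) := by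
  symm
  refine Nat.card_congr (Equiv.ofBijective
    (Quotient.lift (fun d => orb ((subα m).trans (subσ m)) (d, false))
      (fun d d' h => orb_eq.2 ((sub_scφ m).2 h))) ⟨?_, ?_⟩)
  · intro q q' h
    obtain ⟨d, rfl⟩ := orb_surj _ q
    obtain ⟨d', rfl⟩ := orb_surj _ q'
    exact orb_eq.2 ((sub_scφ m).1 (orb_eq.1 h))
  · intro q
    obtain ⟨⟨d, b⟩, rfl⟩ := orb_surj _ q
    cases b
    · exact ⟨orb m.φ d, rfl⟩
    · refine ⟨orb m.φ d, ?_⟩
      show orb ((subα m).trans (subσ m)) (d, false) = _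
      rw [← subφ_f m d]
      exact (orb_apply ((subα m).trans (subσ m)) (d, false)).symm

theorem subα_card : Nat.card (Orb (subα m)) = Nat.card m.D := by
  symm
  refine Nat.card_congr (Equiv.ofBijective (fun d => orb (subα m) (d, false)) ⟨?_, ?_⟩)
  · intro d d' h
    rcases (sameCycle_invol (subα_inv m)).1 (orb_eq.1 h) with h1 | h1
    · exact (congrArg Prod.fst h1).symm
    · have h2 := congrArg Prod.snd h1
      simp [subα] at h2
  · intro q
    obtain ⟨⟨d, b⟩, rfl⟩ := orb_surj _ q
    cases b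
    · exact ⟨d, rfl⟩
    · refine ⟨m.α d, ?_⟩
      exact orb_apply (subα m) (d, true)

theorem sub_conn (x y : m.D × Bool) :
    Relation.ReflTransGen (fun a b => b = subσ m a ∨ b = subα m a) x y := by
  have hrev : ∀ x y : m.D × Bool,
      Relation.ReflTransGen (fun a b => b = subσ m a ∨ b = subα m a) (subα m x) y →
      Relation.ReflTransGen (fun a b => b = subσ m a ∨ b = subα m a) x y := fun x y h =>
    Relation.ReflTransGen.head (Or.inr rfl) h
  have hσ : ∀ d, Relation.ReflTransGen (fun a b => b = subσ m a ∨ b = subα m a) (d, false)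
      (m.σ d, false) := fun d => Relation.ReflTransGen.single (Or.inl rfl)
  have hα : ∀ d, Relation.ReflTransGen (fun a b => b = subσ m a ∨ b = subα m a) (d, false)
      (m.α d, false) := by
    intro d
    refine Relation.ReflTransGen.head (b := (m.α d, true)) (Or.inr rfl) ?_
    refine Relation.ReflTransGen.head (b := (d, true)) (Or.inl ?_) ?_
    · rw [subσ_t, m.α_inv]
    · exact Relation.ReflTransGen.single (Or.inr rfl)
  have hff : ∀ d d', Relation.ReflTransGen (fun a b => b = subσ m a ∨ b = subα m a) (d, false)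
      (d', false) := by
    intro d d'
    have h1 := m.conn d d'
    induction h1 with
    | refl => exact Relation.ReflTransGen.refl
    | @tail a b hp hstep ih =>
      rcases hstep with rfl | rfl
      · exact ih.trans (hσ a)
      · exact ih.trans (hα a)
  rcases x with ⟨d, _ | _⟩ <;> rcases y with ⟨d', _ | _⟩
  · exact hff d d'
  · exact (hff d (m.α d')).trans (Relation.ReflTransGen.single (Or.inr (by
      rw [subα_apply, m.α_inv]; rfl)))
  · exact Relation.ReflTransGen.head (Or.inr rfl) (hff (m.α d) d')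
  · exact Relation.ReflTransGen.head (Or.inr rfl) ((hff (m.α d) (m.α d')).trans
      (Relation.ReflTransGen.single (Or.inr (by rw [subα_apply, m.α_inv]; rfl))))

/-- the subdivided map -/
@[reducible] def CMap.sub : CMap where
  D := m.D × Bool
  σ := subσ m
  α := subα m
  α_inv := subα_inv m
  α_ne := subα_ne m
  ne := ⟨(m.ne.some, false)⟩
  conn := sub_conn m
  euler := by
    rw [subφ_card, subα_card, Nat.card_congr (subσ_eqv m), Nat.card_sum]
    have h1 := m.card_α
    have h2 := m.euler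
    have h3 : Nat.card (Orb (m.α.trans m.σ)) = Nat.card (Orb m.φ) := rfl
    omega

/-- the subdivided map has no loops -/
theorem sub_noLoop : m.sub.NoLoop := by
  intro x h
  have h1 := sub_scσ_snd m (orb_eq.1 h)
  rcases x with ⟨d, b⟩
  cases b <;> simp [subα] at h1

/-- no two edges with the same ends -/
def CMap.Simp (m : CMap) : Prop := ∀ x y, orb m.σ x = orb m.σ y →
  orb m.σ (m.α x) = orb m.σ (m.α y) → x = y

theorem sub_simp (h : m.NoLoop) : m.sub.Simp := by
  rintro ⟨d, b⟩ ⟨d', b'⟩ h1 h2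
  have hb : b = b' := sub_scσ_snd m (orb_eq.1 h1)
  subst hb
  cases b
  · have h3 : m.σ.SameCycle d d' := (sub_scσ_f m).1 (orb_eq.1 h1)
    have h4 : m.α.SameCycle (m.α d) (m.α d') := (sub_scσ_t m).1 (orb_eq.1 h2)
    rw [sameCycle_invol m.α_inv, m.α_inv] at h4
    rcases h4 with h4 | h4
    · rw [m.α.injective h4]
    · exfalso
      apply h d'
      rw [h4]
      exact (orb_eq.2 h3).symm
  · have h3 : m.α.SameCycle d d' := (sub_scσ_t m).1 (orb_eq.1 h1)
    have h4 : m.σ.SameCycle (m.α d) (m.α d') := (sub_scσ_f m).1 (orb_eq.1 h2)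
    rw [sameCycle_invol m.α_inv] at h3
    rcases h3 with h3 | h3
    · rw [h3]
    · exfalso
      rw [h3, m.α_inv] at h4
      exact h d (orb_eq.2 h4).symm

/-- the length of the faces doubles -/
theorem sub_period (x : m.D × Bool) :
    Function.minimalPeriod m.sub.φ x = 2 * Function.minimalPeriod m.φ x.1 := by
  have hit : ∀ n : ℕ, (⇑m.sub.φ)^[n] = ⇑(m.sub.φ ^ n) := fun n => by
    rw [Equiv.Perm.coe_pow]
  have hit' : ∀ n : ℕ, (⇑m.φ)^[n] = ⇑(m.φ ^ n) := fun n => by
    rw [Equiv.Perm.coe_pow]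
  have hsq : ∀ n : ℕ, (m.sub.φ ^ (2 * n)) x = ((m.φ ^ n) x.1, x.2) := by
    intro n
    rcases x with ⟨d, _ | _⟩
    · exact subφ_sq m n d
    · exact subφ_sq_t m n d
  have hodd : ∀ n : ℕ, (m.sub.φ ^ (2 * n + 1)) x ≠ x := by
    intro n h
    rw [pow_succ', Equiv.Perm.mul_apply, hsq] at h
    have h2 := congrArg Prod.snd h
    rcases x with ⟨d, _ | _⟩
    · rw [show m.sub.φ ((m.φ ^ n) d, false) = ((m.φ ^ n) d, true) from subφ_f m _] at h2
      simp at h2
    · rw [show m.sub.φ ((m.φ ^ n) d, true) = (m.φ ((m.φ ^ n) d), false) from subφ_t m _] at h2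
      simp at h2
  apply Nat.dvd_antisymm
  · rw [← Function.isPeriodicPt_iff_minimalPeriod_dvd]
    show (⇑m.sub.φ)^[_] x = x
    rw [hit, hsq, ← hit']
    exact Prod.ext (Function.iterate_minimalPeriod) rfl
  · have h1 : (⇑m.sub.φ)^[Function.minimalPeriod m.sub.φ x] x = x := Function.iterate_minimalPeriod
    rcases Nat.even_or_odd' (Function.minimalPeriod m.sub.φ x) with ⟨k, hk | hk⟩
    · rw [hk] at h1 ⊢
      rw [hit, hsq] at h1
      refine Nat.mul_dvd_mul_left 2 ?_
      rw [← Function.isPeriodicPt_iff_minimalPeriod_dvd]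
      show (⇑m.φ)^[k] x.1 = x.1
      rw [hit']
      exact congrArg Prod.fst h1
    · rw [hk, hit] at h1
      exact absurd h1 (hodd k)

/-- number of darts at a point -/
def CMap.dg (m : CMap) (v : Orb m.σ) : ℕ := (univ.filter fun d => orb m.σ d = v).card

theorem sub_dg {Δ : ℕ} (hΔ : 2 ≤ Δ) (h : ∀ v, m.dg v ≤ Δ) : ∀ v, m.sub.dg v ≤ Δ := by
  intro v
  obtain ⟨⟨d, b⟩, rfl⟩ := orb_surj _ v
  unfold CMap.dg
  cases b
  · have h1 : (univ.filter fun x : m.D × Bool => orb (subσ m) x = orb (subσ m) (d, false)) ⊆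
        (univ.filter fun d' => orb m.σ d' = orb m.σ d).image (fun d' => (d', false)) := by
      rintro ⟨d', b'⟩ hx
      rw [mem_filter] at hx
      have hb : b' = false := sub_scσ_snd m (orb_eq.1 hx.2)
      subst hb
      rw [mem_image]
      exact ⟨d', mem_filter.2 ⟨mem_univ _, orb_eq.2 ((sub_scσ_f m).1 (orb_eq.1 hx.2))⟩, rfl⟩
    exact (card_le_card h1).trans (card_image_le.trans (h _))
  · have h1 : (univ.filter fun x : m.D × Bool => orb (subσ m) x = orb (subσ m) (d, true)) ⊆
        {(d, true), (m.α d, true)} := by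
      rintro ⟨d', b'⟩ hx
      rw [mem_filter] at hx
      have hb : b' = true := sub_scσ_snd m (orb_eq.1 hx.2)
      subst hb
      have h2 := (sub_scσ_t m).1 (orb_eq.1 hx.2.symm)
      rw [sameCycle_invol m.α_inv] at h2
      rw [mem_insert, mem_singleton]
      rcases h2 with rfl | rfl
      · exact Or.inl rfl
      · exact Or.inr rfl
    exact (card_le_card h1).trans ((card_le_two).trans hΔ)

end Pool.Agent.H.MP_c8cc4c_co
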