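import Mathlib
import Pool.Agent.H.MP_c8cc4c_co.K.RC2
import Pool.Agent.H.MP_c8cc4c_co.K.Sub

/-! # MP_c8cc4c_co, part K, file 5: the mouths of the ring complex -/

open scoped Classical
open Finset

noncomputable section

namespace Pool.Agent.H.MP_c8cc4c_co

variable {m : CMap}

/-- the lengths of all faces are divisible by 4 -/
def CMap.F4 (m : CMap) : Prop := ∀ d, 4 ∣ Function.minimalPeriod m.φ d

theorem CMap.period_pos (m : CMap) (d : m.D) : 0 < Function.minimalPeriod m.φ d := by
  apply Function.minimalPeriod_pos_of_mem_periodicPts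
  refine ⟨orderOf m.φ, orderOf_pos m.φ, ?_⟩
  show (⇑m.φ)^[orderOf m.φ] d = d
  rw [← Equiv.Perm.coe_pow, pow_orderOf_eq_one]
  rfl

theorem CMap.F4.eq (h4 : m.F4) (d : m.D) :
    2 * (Function.minimalPeriod m.φ d / 4 + Function.minimalPeriod m.φ d / 4) =
      Function.minimalPeriod m.φ d := by
  have := Nat.div_mul_cancel (h4 d)
  omega

theorem Mo_pow_per (d : m.D) (t : ℕ) :
    (m.φ ^ (t + Function.minimalPeriod m.φ d)) d = (m.φ ^ t) d := by
  rw [pow_add, Equiv.Perm.mul_apply]
  congr 1
  have h1 : (⇑m.φ)^[Function.minimalPeriod m.φ d] d = d := Function.iterate_minimalPeriod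
  rw [← Equiv.Perm.coe_pow] at h1
  exact h1

theorem Mo_orb_pow (d : m.D) (t : ℕ) : orb m.φ ((m.φ ^ t) d) = orb m.φ d := by
  induction t with
  | zero => rfl
  | succ t ih => rw [pow_succ', Equiv.Perm.mul_apply, m.orbφ_self, ih]

theorem Mo_out (q : Orb m.φ) : orb m.φ q.out = q := Quotient.out_eq q

/-- the chain of a face -/
def faceC (m : CMap) (q : Orb m.φ) : (RC m).F → ZMod 2 := fun f => if f = RF.face q then 1 else 0

theorem faceC_quad (q : Orb m.φ) (d : m.D) : faceC m q (RF.quad d) = 0 := by
  unfold faceC
  rw [if_neg]
  intro h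
  cases h

theorem faceC_face (q q' : Orb m.φ) : faceC m q (RF.face q') = if q' = q then 1 else 0 := by
  unfold faceC
  simp only [RF.face.injEq]

theorem Mo_dc (h : m.NoLoop) (q : Orb m.φ) (e : (RC m).E) :
    (RC m).dF (faceC m q) e ≠ 0 ↔ ∃ t : ℕ, RE.ring ((m.φ ^ t) q.out) = e := by
  cases e with
  | base c =>
    obtain ⟨d, rfl⟩ := orb_surj m.α c
    rw [RC_dF_base, faceC_quad, faceC_quad]
    constructor
    · intro hc
      exact absurd (add_zero _) hc
    · rintro ⟨t, ht⟩
      cases ht
  | spoke d =>
    rw [RC_dF_spoke h, faceC_quad, faceC_quad]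
    constructor
    · intro hc
      exact absurd (add_zero _) hc
    · rintro ⟨t, ht⟩
      cases ht
  | ring r =>
    rw [RC_dF_ring, faceC_quad, faceC_face, zero_add]
    constructor
    · intro hc
      have h1 : orb m.φ r = q := by
        by_contra hc'
        rw [if_neg hc'] at hc
        exact hc rfl
      have h2 : m.φ.SameCycle q.out r := by
        rw [← orb_eq, Mo_out, h1]
      obtain ⟨t, ht⟩ := h2.exists_nat_pow_eq
      exact ⟨t, by rw [ht]⟩
    · rintro ⟨t, ht⟩
      injection ht with ht
      rw [← ht, Mo_orb_pow, Mo_out, if_pos rfl]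
      exact one_ne_zero

/-- the mouths of the ring complex -/
@[reducible] def RCM (h : m.NoLoop) (h4 : m.F4) : Mouths (RC m) where
  I := Orb m.φ
  finI := Fintype.ofFinite _
  a := fun q => Function.minimalPeriod m.φ q.out / 4
  b := fun q => Function.minimalPeriod m.φ q.out / 4
  ha := fun q => Nat.div_pos (Nat.le_of_dvd (m.period_pos _) (h4 _)) (by norm_num)
  hab := fun _ => le_refl _
  hba := fun _ => Nat.le_succ _
  c := faceC m
  gv := fun q t => RV.ring ((m.φ ^ t) q.out)
  ge := fun q t => RE.ring ((m.φ ^ t) q.out)
  gv_per := fun q t => by rw [h4.eq, Mo_pow_per]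
  ge_per := fun q t => by rw [h4.eq, Mo_pow_per]
  gv_inj := fun q s t hs ht hst => by
    rw [h4.eq] at hs ht
    injection hst with hst
    rw [Equiv.Perm.coe_pow, Equiv.Perm.coe_pow] at hst
    exact Function.iterate_injOn_Iio_minimalPeriod hs ht hst
  ge_inc := fun q t => ⟨RC_inc_rr.2 (Or.inl rfl), RC_inc_rr.2 (Or.inr (by
    rw [pow_succ', Equiv.Perm.mul_apply]))⟩
  dc := Mo_dc h
  disj := fun i j f hi hj => by
    cases f with
    | quad d => exact absurd (faceC_quad i d) hi
    | face q =>
      rw [faceC_face] at hi hj
      have h1 : q = i := by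
        by_contra hc
        rw [if_neg hc] at hi
        exact hi rfl
      have h2 : q = j := by
        by_contra hc
        rw [if_neg hc] at hj
        exact hj rfl
      rw [← h1, h2]
  edge := fun i e he => by
    exfalso
    have key : ∃ k, (RC m).bd (RF.quad k) e := by
      cases e with
      | base q =>
        obtain ⟨d, rfl⟩ := orb_surj m.α q
        exact ⟨d, rfl⟩
      | spoke d => exact ⟨d, Or.inl rfl⟩
      | ring r => exact ⟨r, rfl⟩
    obtain ⟨k, hk⟩ := key
    have h1 := he _ hk
    rw [faceC_quad] at h1
    exact zero_ne_one h1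

theorem RC_at_quad (x : (RC m).V) : ∃ k, (RC m).At (RF.quad k) x := by
  cases x with
  | base v =>
    obtain ⟨d, rfl⟩ := orb_surj m.σ v
    exact ⟨d, RE.spoke d, RC_bd_qs.2 (Or.inl rfl), RC_inc_sb.2 rfl⟩
  | ring r => exact ⟨r, RE.spoke r, RC_bd_qs.2 (Or.inl rfl), RC_inc_sr.2 rfl⟩

/-- all vertices are real -/
theorem RCM_real (h : m.NoLoop) (h4 : m.F4) (x : (RC m).V) : x ∈ (RCM h h4).Real := by
  intro i hi
  obtain ⟨k, hk⟩ := RC_at_quad x
  have h1 := hi _ hk
  have h2 : (RCM h h4).c i (RF.quad k) = 0 := faceC_quad i k
  rw [h2] at h1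
  exact zero_ne_one h1

theorem RC_len (h : m.NoLoop) (d : m.D) : (RC m).len (RF.quad d) = 4 := by
  unfold PC.len
  have h1 : univ.filter (fun e => (RC m).bd (RF.quad d) e) =
      ({RE.base (orb m.α d), RE.spoke d, RE.spoke (m.φ d), RE.ring d} : Finset (RC m).E) := by
    ext e
    rw [mem_filter, mem_insert, mem_insert, mem_insert, mem_singleton]
    cases e with
    | base q =>
      rw [RC_bd_qb, RE.base.injEq]
      constructor
      · rintro ⟨-, h1⟩
        exact Or.inl h1.symm
      · rintro (h1 | h1 | h1 | h1)
        · exact ⟨mem_univ _, h1.symm⟩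
        all_goals cases h1
    | spoke s =>
      rw [RC_bd_qs, RE.spoke.injEq, RE.spoke.injEq]
      constructor
      · rintro ⟨-, h1 | h1⟩
        · exact Or.inr (Or.inl h1)
        · exact Or.inr (Or.inr (Or.inl h1))
      · rintro (h1 | h1 | h1 | h1)
        · cases h1
        · exact ⟨mem_univ _, Or.inl h1⟩
        · exact ⟨mem_univ _, Or.inr h1⟩
        · cases h1
    | ring r =>
      rw [RC_bd_qr, RE.ring.injEq]
      constructor
      · rintro ⟨-, h1⟩
        exact Or.inr (Or.inr (Or.inr h1))
      · rintro (h1 | h1 | h1 | h1)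
        · cases h1
        · cases h1
        · cases h1
        · exact ⟨mem_univ _, h1⟩
  have h2 : (univ.filter fun e => (RC m).bd (RF.quad d) e).card =
      ({RE.base (orb m.α d), RE.spoke d, RE.spoke (m.φ d), RE.ring d} : Finset (RC m).E).card := by
    rw [h1]
  refine Eq.trans ?_ (h2.trans ?_)
  · rfl
  · rw [card_insert_of_notMem, card_insert_of_notMem, card_insert_of_notMem, card_singleton]
    · rw [mem_singleton]
      intro hc
      cases hc
    · rw [mem_insert, mem_singleton]
      rintro (hc | hc)
      · injection hc with hc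
        exact h.φ_ne d hc.symm
      · cases hc
    · rw [mem_insert, mem_insert, mem_singleton]
      rintro (hc | hc | hc) <;> cases hc

theorem RC_deg_base (d : m.D) : (RC m).deg (RV.base (orb m.σ d)) ≤ 2 * m.dg (orb m.σ d) := by
  unfold PC.deg CMap.dg
  set S := univ.filter fun d' => orb m.σ d' = orb m.σ d with hS
  have h1 : (univ.filter fun e => (RC m).inc e (RV.base (orb m.σ d))) ⊆
      S.image (fun d' => (RE.base (orb m.α d') : (RC m).E)) ∪
        S.image (fun d' => (RE.spoke d' : (RC m).E)) := by
    intro e he
    rw [mem_filter] at he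
    rw [mem_union, mem_image, mem_image]
    cases e with
    | base q =>
      obtain ⟨d', h1, h2⟩ := he.2
      exact Or.inl ⟨d', mem_filter.2 ⟨mem_univ _, h2⟩, by rw [h1]⟩
    | spoke s => exact Or.inr ⟨s, mem_filter.2 ⟨mem_univ _, he.2⟩, rfl⟩
    | ring r => exact absurd he.2 RC_inc_rb
  refine (card_le_card h1).trans ((card_union_le _ _).trans ?_)
  have h2 := card_image_le (s := S) (f := fun d' => (RE.base (orb m.α d') : (RC m).E))
  have h3 := card_image_le (s := S) (f := fun d' => (RE.spoke d' : (RC m).E))
  omega

theorem RC_deg_ring (r : m.D) : (RC m).deg (RV.ring r) ≤ 3 := by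
  unfold PC.deg
  have h1 : (univ.filter fun e => (RC m).inc e (RV.ring r)) ⊆
      ({RE.spoke r, RE.ring r, RE.ring (m.φ.symm r)} : Finset (RC m).E) := by
    intro e he
    rw [mem_filter] at he
    rw [mem_insert, mem_insert, mem_singleton]
    cases e with
    | base q => exact absurd he.2 RC_inc_br
    | spoke s =>
      have h2 := RC_inc_sr.1 he.2
      exact Or.inl (by rw [h2])
    | ring s =>
      rcases RC_inc_rr.1 he.2 with h2 | h2
      · exact Or.inr (Or.inl (by rw [h2]))
      · exact Or.inr (Or.inr (by rw [h2, Equiv.symm_apply_apply]))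
  exact (card_le_card h1).trans card_le_three

/-- the ring complex has no double edges -/
theorem RC_simple (hs : m.Simp) (h : m.NoLoop) (h4 : m.F4) : (RC m).Simple := by
  intro e e' x y hxy h1 h2 h3 h4'
  have hφ2 : ∀ d, m.φ (m.φ d) ≠ d := by
    intro d hd
    have h5 : Function.minimalPeriod m.φ d ∣ 2 := by
      rw [← Function.isPeriodicPt_iff_minimalPeriod_dvd]
      exact hd
    have h6 := (h4 d).trans h5
    have h7 := Nat.le_of_dvd (by norm_num) h6
    omega
  cases e with
  | base q =>
    obtain ⟨d, rfl⟩ := orb_surj m.α q
    cases x with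
    | ring r => exact absurd h1 RC_inc_br
    | base v =>
      cases y with
      | ring r => exact absurd h2 RC_inc_br
      | base u =>
        cases e' with
        | spoke s =>
          exfalso
          apply hxy
          rw [← RC_inc_sb.1 h3, ← RC_inc_sb.1 h4']
        | ring s => exact absurd h3 RC_inc_rb
        | base q' =>
          obtain ⟨d', rfl⟩ := orb_surj m.α q'
          have h1' := RC_inc_bb.1 h1
          have h2' := RC_inc_bb.1 h2
          have h3' := RC_inc_bb.1 h3
          have h4'' := RC_inc_bb.1 h4'
          have hvu : v ≠ u := fun hc => hxy (by rw [hc])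
          -- the dart of `q` starting at `v`
          have key : ∀ a : m.D, (v = orb m.σ a ∨ v = orb m.σ (m.α a)) →
              (u = orb m.σ a ∨ u = orb m.σ (m.α a)) →
              ∃ b, orb m.α b = orb m.α a ∧ orb m.σ b = v ∧ orb m.σ (m.α b) = u := by
            intro a ha hb
            rcases ha with ha | ha
            · rcases hb with hb | hb
              · exact absurd (ha.trans hb.symm) hvu
              · exact ⟨a, rfl, ha.symm, hb.symm⟩
            · rcases hb with hb | hb
              · exact ⟨m.α a, m.orbα_self a, ha.symm, by rw [m.α_inv]; exact hb.symm⟩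
              · exact absurd (ha.trans hb.symm) hvu
          obtain ⟨b, hb1, hb2, hb3⟩ := key d h1' h2'
          obtain ⟨b', hb1', hb2', hb3'⟩ := key d' h3' h4''
          have h5 := hs b b' (hb2.trans hb2'.symm) (hb3.trans hb3'.symm)
          rw [← hb1, ← hb1', h5]
  | spoke s =>
    cases x with
    | ring r =>
      have hr := RC_inc_sr.1 h1
      subst hr
      cases y with
      | ring r' =>
        have hr' := RC_inc_sr.1 h2
        exact absurd (by rw [hr']) hxy
      | base v =>
        cases e' with
        | base q => exact absurd h3 RC_inc_br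
        | spoke s' =>
          have hs' := RC_inc_sr.1 h3
          rw [hs']
        | ring s' => exact absurd h4' RC_inc_rb
    | base v =>
      cases y with
      | base u =>
        exfalso
        apply hxy
        rw [← RC_inc_sb.1 h1, ← RC_inc_sb.1 h2]
      | ring r =>
        have hr := RC_inc_sr.1 h2
        subst hr
        cases e' with
        | base q => exact absurd h4' RC_inc_br
        | spoke s' =>
          have hs' := RC_inc_sr.1 h4'
          rw [hs']
        | ring s' => exact absurd h3 RC_inc_rb
  | ring s =>
    cases x with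
    | base v => exact absurd h1 RC_inc_rb
    | ring r =>
      cases y with
      | base v => exact absurd h2 RC_inc_rb
      | ring r' =>
        have hrr : r ≠ r' := fun hc => hxy (by rw [hc])
        cases e' with
        | base q => exact absurd h3 RC_inc_br
        | spoke s' =>
          have e1 := RC_inc_sr.1 h3
          have e2 := RC_inc_sr.1 h4'
          exact absurd (e1.trans e2.symm) hrr
        | ring s' =>
          have e1 := RC_inc_rr.1 h1
          have e2 := RC_inc_rr.1 h2
          have e3 := RC_inc_rr.1 h3
          have e4 := RC_inc_rr.1 h4'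
          have hss : s = s' := by
            rcases e1 with rfl | rfl
            · rcases e2 with e2 | rfl
              · exact absurd e2.symm hrr
              · rcases e3 with e3 | e3
                · exact e3
                · rcases e4 with e4 | e4
                  · exfalso
                    rw [← e4] at e3
                    exact hφ2 _ e3.symm
                  · exact m.φ.injective e4
            · rcases e2 with rfl | e2
              · rcases e3 with e3 | e3
                · rcases e4 with e4 | e4
                  · exact e4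
                  · exfalso
                    rw [← e3] at e4
                    exact hφ2 _ e4.symm
                · exact m.φ.injective e3
              · exact absurd e2.symm hrr
          rw [hss]

end Pool.Agent.H.MP_c8cc4c_co
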