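import Mathlib
import Pool.Agent.H.MP_c8cc4c_co.G.Raw

/-! # MP_c8cc4c_co, part K, file 6: the glued complex has no double edges if the grids are squares -/

open scoped Classical
open Finset

noncomputable section

namespace Pool.Agent.H.MP_c8cc4c_co

variable {M : PC} (Mo : Mouths M)

/-- second end of an interior grid edge -/
def en2 (β : Bool) (p q : ℕ) : ℕ × ℕ := if β then (p, q + 1) else (p + 1, q)

theorem rinc_inr (i : Mo.I) (β : Bool) (p q : ℕ) (v : M.V ⊕ (Mo.I × ℕ × ℕ)) :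
    Mo.rinc (Sum.inr (i, β, p, q)) v ↔
      v = Mo.gp i p q ∨ v = Mo.gp i (en2 β p q).1 (en2 β p q).2 := by
  cases β <;> rfl

theorem okE_inr {i : Mo.I} {β : Bool} {p q : ℕ} (h : Mo.okE (Sum.inr (i, β, p, q))) :
    p ≤ Mo.a i ∧ q ≤ Mo.b i ∧ (en2 β p q).1 ≤ Mo.a i ∧ (en2 β p q).2 ≤ Mo.b i := by
  cases β
  · have h' : p < Mo.a i ∧ 0 < q ∧ q < Mo.b i := h
    simp only [en2, Bool.false_eq_true, if_false]
    omega
  · have h' : 0 < p ∧ p < Mo.a i ∧ q < Mo.b i := h
    simp only [en2, if_true]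
    omega

/-- one of the ends of an interior grid edge is an interior grid point -/
theorem okE_int (hab : ∀ i, Mo.a i = Mo.b i) {i : Mo.I} {β : Bool} {p q : ℕ}
    (h : Mo.okE (Sum.inr (i, β, p, q))) :
    (∃ w, Mo.gp i p q = Sum.inr (i, w)) ∨
      ∃ w, Mo.gp i (en2 β p q).1 (en2 β p q).2 = Sum.inr (i, w) := by
  have hi := hab i
  cases β
  · have h' : p < Mo.a i ∧ 0 < q ∧ q < Mo.b i := h
    by_cases hp : 0 < p
    · left
      exact ⟨(p, q), gp_int Mo i ⟨hp, h'.1, h'.2⟩⟩
    · right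
      refine ⟨(p + 1, q), ?_⟩
      simp only [en2, Bool.false_eq_true, if_false]
      exact gp_int Mo i ⟨by omega, by omega, h'.2⟩
  · have h' : 0 < p ∧ p < Mo.a i ∧ q < Mo.b i := h
    by_cases hq : 0 < q
    · left
      exact ⟨(p, q), gp_int Mo i ⟨h'.1, h'.2.1, hq, h'.2.2⟩⟩
    · right
      refine ⟨(p, q + 1), ?_⟩
      simp only [en2, if_true]
      exact gp_int Mo i ⟨h'.1, h'.2.1, by omega, by omega⟩

theorem gp_fst {i j : Mo.I} {x y : ℕ} {w : ℕ × ℕ} (h : Mo.gp i x y = Sum.inr (j, w)) : i = j := by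
  unfold Mouths.gp at h
  split_ifs at h
  injection h with h
  exact congrArg Prod.fst h

/-- The glued complex has no double edges. -/
theorem glue_simple (hs : M.Simple) (hab : ∀ i, Mo.a i = Mo.b i) : (glue M Mo).Simple := by
  rintro ⟨e, he⟩ ⟨e', he'⟩ ⟨x, hx⟩ ⟨y, hy⟩ hxy h1 h2 h3 h4
  have hxy' : x ≠ y := fun hc => hxy (Subtype.ext hc)
  have h1' : Mo.rinc e x := h1
  have h2' : Mo.rinc e y := h2
  have h3' : Mo.rinc e' x := h3
  have h4' : Mo.rinc e' y := h4
  -- a real edge and an interior edge have different ends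
  have key : ∀ (a : M.E) (i : Mo.I) (β : Bool) (p q : ℕ), Mo.okE (Sum.inr (i, β, p, q)) →
      Mo.rinc (Sum.inl a) x → Mo.rinc (Sum.inl a) y → Mo.rinc (Sum.inr (i, β, p, q)) x →
      Mo.rinc (Sum.inr (i, β, p, q)) y → False := by
    intro a i β p q hok ha hb hc hd
    obtain ⟨x', -, rfl⟩ := ha
    obtain ⟨y', -, rfl⟩ := hb
    rw [rinc_inr] at hc hd
    rcases okE_int Mo hab hok with ⟨w, hw⟩ | ⟨w, hw⟩
    · rcases hc with hc | hc
      · rw [hw] at hc
        cases hc
      · rcases hd with hd | hd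
        · rw [hw] at hd
          cases hd
        · exact hxy' (hc.trans hd.symm)
    · rcases hc with hc | hc
      · rcases hd with hd | hd
        · exact hxy' (hc.trans hd.symm)
        · rw [hw] at hd
          cases hd
      · rw [hw] at hc
        cases hc
  apply Subtype.ext
  show e = e'
  rcases e with a | ⟨i, β, p, q⟩ <;> rcases e' with a' | ⟨i', β', p', q'⟩
  · obtain ⟨x', hx1, rfl⟩ := h1'
    obtain ⟨y', hy1, rfl⟩ := h2'
    obtain ⟨x'', hx2, hx3⟩ := h3'
    obtain ⟨y'', hy2, hy3⟩ := h4'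
    injection hx3 with hx3
    injection hy3 with hy3
    subst hx3
    subst hy3
    rw [hs a a' x' y' (fun hc => hxy' (by rw [hc])) hx1 hy1 hx2 hy2]
  · exact (key a i' β' p' q' he' h1' h2' h3' h4').elim
  · exact (key a' i β p q he h3' h4' h1' h2').elim
  · rw [rinc_inr] at h1' h2' h3' h4'
    obtain ⟨b1, b2, b3, b4⟩ := okE_inr Mo he
    obtain ⟨b1', b2', b3', b4'⟩ := okE_inr Mo he'
    -- the ends agree as unordered pairs
    have hpair : (Mo.gp i p q = Mo.gp i' p' q' ∧
        Mo.gp i (en2 β p q).1 (en2 β p q).2 = Mo.gp i' (en2 β' p' q').1 (en2 β' p' q').2) ∨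
        (Mo.gp i p q = Mo.gp i' (en2 β' p' q').1 (en2 β' p' q').2 ∧
        Mo.gp i (en2 β p q).1 (en2 β p q).2 = Mo.gp i' p' q') := by
      rcases h1' with h1' | h1' <;> rcases h2' with h2' | h2' <;> rcases h3' with h3' | h3' <;>
        rcases h4' with h4' | h4'
      all_goals first
        | exact absurd (h1'.trans h2'.symm) hxy'
        | exact absurd (h3'.trans h4'.symm) hxy'
        | exact Or.inl ⟨h1'.symm.trans h3', h2'.symm.trans h4'⟩
        | exact Or.inr ⟨h1'.symm.trans h3', h2'.symm.trans h4'⟩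
        | exact Or.inr ⟨h2'.symm.trans h4', h1'.symm.trans h3'⟩
        | exact Or.inl ⟨h2'.symm.trans h4', h1'.symm.trans h3'⟩
    have hi : i = i' := by
      rcases okE_int Mo hab he with ⟨w, hw⟩ | ⟨w, hw⟩
      · rcases hpair with ⟨c1, -⟩ | ⟨c1, -⟩
        · rw [hw] at c1
          exact (gp_fst Mo c1.symm).symm
        · rw [hw] at c1
          exact (gp_fst Mo c1.symm).symm
      · rcases hpair with ⟨-, c1⟩ | ⟨-, c1⟩
        · rw [hw] at c1
          exact (gp_fst Mo c1.symm).symm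
        · rw [hw] at c1
          exact (gp_fst Mo c1.symm).symm
    subst hi
    rcases hpair with ⟨c1, c2⟩ | ⟨c1, c2⟩
    · obtain ⟨d1, d2⟩ := gp_inj Mo i b1 b2 b1' b2' c1
      obtain ⟨d3, d4⟩ := gp_inj Mo i b3 b4 b3' b4' c2
      subst d1
      subst d2
      cases β <;> cases β' <;> simp only [en2, if_true, Bool.false_eq_true, if_false] at d3 d4
      · rfl
      · omega
      · omega
      · rfl
    · exfalso
      obtain ⟨d1, d2⟩ := gp_inj Mo i b1 b2 b3' b4' c1
      obtain ⟨d3, d4⟩ := gp_inj Mo i b3 b4 b1' b2' c2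
      cases β <;> cases β' <;>
        simp only [en2, if_true, Bool.false_eq_true, if_false] at d1 d2 d3 d4 <;> omega

end Pool.Agent.H.MP_c8cc4c_co
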