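import Mathlib
import Pool.Agent.H.MP_c8cc4c_co.K.Mo
import Pool.Agent.H.MP_c8cc4c_co.K.Simple
import Pool.Agent.H.MP_c8cc4c_co.G.GlueA

/-! # MP_c8cc4c_co, part K, file 7: the quadrangulated sphere of a combinatorial map -/

open scoped Classical
open Finset

noncomputable section

namespace Pool.Agent.H.MP_c8cc4c_co

/-- a point of the map as a point of the twice subdivided map -/
def pt2 (m : CMap) : Orb m.σ → Orb m.sub.sub.σ :=
  Quotient.lift (fun d => orb m.sub.sub.σ ((d, false), false))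
    (fun _ _ h => orb_eq.2 ((sub_scσ_f m.sub).2 ((sub_scσ_f m).2 h)))

theorem pt2_orb (m : CMap) (d : m.D) :
    pt2 m (orb m.σ d) = orb m.sub.sub.σ ((d, false), false) := rfl

theorem pt2_inj (m : CMap) : Function.Injective (pt2 m) := by
  intro q q' h
  obtain ⟨d, rfl⟩ := orb_surj _ q
  obtain ⟨d', rfl⟩ := orb_surj _ q'
  exact orb_eq.2 ((sub_scσ_f m).1 ((sub_scσ_f m.sub).1 (orb_eq.1 h)))

theorem sub_F4 (m : CMap) : m.sub.sub.F4 := by
  intro x
  rw [sub_period, sub_period]
  exact ⟨Function.minimalPeriod m.φ x.1.1, by ring⟩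

/-- the complex -/
def KN (m : CMap) : PC := glue (RC m.sub.sub) (RCM (sub_noLoop m.sub) (sub_F4 m))

/-- the vertices of the complex which are points of the map -/
def Kι (m : CMap) (q : Orb m.σ) : (KN m).V :=
  ⟨Sum.inl (RV.base (pt2 m q)), RCM_real (sub_noLoop m.sub) (sub_F4 m) _⟩

theorem Kι_inj (m : CMap) : Function.Injective (Kι m) := by
  intro q q' h
  have h1 := congrArg Subtype.val h
  injection h1 with h2
  injection h2 with h3
  exact pt2_inj m h3

theorem KN_adj (m : CMap) (x : m.sub.sub.D) {u v : (KN m).V}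
    (hu : u.1 = Sum.inl (RV.base (orb m.sub.sub.σ x)))
    (hv : v.1 = Sum.inl (RV.base (orb m.sub.sub.σ (m.sub.sub.α x)))) :
    (KN m).graph.Adj u v := by
  refine glue_adj_real (RCM (sub_noLoop m.sub) (sub_F4 m)) (RC_sphere (sub_noLoop m.sub)) hu hv ?_
  refine ⟨?_, RE.base (orb m.sub.sub.α x), RC_inc_bb.2 (Or.inl rfl), RC_inc_bb.2 (Or.inr rfl)⟩
  intro hc
  injection hc with hc
  exact sub_noLoop m.sub x hc

theorem KN_near (m : CMap) (d : m.D) :
    Near (KN m).graph Set.univ 4 (Kι m (orb m.σ d)) (Kι m (orb m.σ (m.α d))) := by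
  let P : m.sub.sub.D → (KN m).V := fun x =>
    ⟨Sum.inl (RV.base (orb m.sub.sub.σ x)), RCM_real (sub_noLoop m.sub) (sub_F4 m) _⟩
  have hP : ∀ x y, orb m.sub.sub.σ x = orb m.sub.sub.σ y → P x = P y := by
    intro x y h
    apply Subtype.ext
    show Sum.inl (RV.base (orb m.sub.sub.σ x)) = Sum.inl (RV.base (orb m.sub.sub.σ y))
    rw [h]
  have hadj : ∀ x, (KN m).graph.Adj (P x) (P (m.sub.sub.α x)) := fun x => KN_adj m x rfl rfl
  -- midpoints
  have hmid : ∀ (n : CMap) (a : n.D), orb n.sub.σ (n.sub.α (a, false)) = orb n.sub.σ (a, true) := by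
    intro n a
    have h1 : n.sub.σ (n.sub.α (a, false)) = (a, true) := subφ_f n a
    rw [← h1]
    exact (n.sub.orbσ_self _).symm
  have e1 : P (m.sub.sub.α ((d, false), false)) = P ((d, false), true) := hP _ _ (hmid m.sub _)
  have e2 : P (m.sub.sub.α ((d, false), true)) = P ((d, true), false) := by
    apply hP
    show orb m.sub.sub.σ (m.sub.α (d, false), false) = _
    apply orb_eq.2
    apply (sub_scσ_f m.sub).2
    exact orb_eq.1 (hmid m d)
  have e3 : P (m.sub.sub.α ((d, true), false)) = P ((d, true), true) := hP _ _ (hmid m.sub _)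
  have e4 : P (m.sub.sub.α ((d, true), true)) = P ((m.α d, false), false) := rfl
  have a1 := hadj ((d, false), false)
  have a2 := hadj ((d, false), true)
  have a3 := hadj ((d, true), false)
  have a4 := hadj ((d, true), true)
  rw [e1] at a1
  rw [e2] at a2
  rw [e3] at a3
  rw [e4] at a4
  exact ⟨SimpleGraph.Walk.cons a1 (SimpleGraph.Walk.cons a2 (SimpleGraph.Walk.cons a3
    (SimpleGraph.Walk.cons a4 SimpleGraph.Walk.nil))), le_refl _, fun _ _ => trivial⟩

theorem KN_sphere (hG : GlueSphereStmt) (m : CMap) : (KN m).IsSphere :=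
  hG _ (RC_sphere (sub_noLoop m.sub)) _

theorem KN_quad (hG : GlueQuadStmt) (m : CMap) : (KN m).Quad := by
  refine hG _ (RC_sphere (sub_noLoop m.sub)) _ ?_
  intro f hf
  cases f with
  | quad d => exact RC_len (sub_noLoop m.sub) d
  | face q =>
    exfalso
    have h1 : faceC m.sub.sub q (RF.face q) = 0 := hf q
    rw [faceC_face, if_pos rfl] at h1
    exact one_ne_zero h1

theorem KN_simple (m : CMap) : (KN m).Simple :=
  glue_simple _ (RC_simple (sub_simp m.sub (sub_noLoop m)) (sub_noLoop m.sub) (sub_F4 m))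
    (fun _ => rfl)

theorem KN_deg (hG : GlueDegStmt) (m : CMap) {Δ : ℕ} (hΔ : 4 ≤ Δ) (h : ∀ v, m.dg v ≤ Δ)
    (v : (KN m).V) : (KN m).deg v ≤ 2 * Δ := by
  have h0 := hG _ (RC_sphere (sub_noLoop m.sub)) (RCM (sub_noLoop m.sub) (sub_F4 m)) v
  have hdg : ∀ u, m.sub.sub.dg u ≤ Δ := sub_dg m.sub (by omega) (sub_dg m (by omega) h)
  obtain ⟨v, hv⟩ := v
  rcases v with x | p
  · have h1 := h0.1 x rfl
    refine h1.trans ?_
    cases x with
    | base q =>
      obtain ⟨x, rfl⟩ := orb_surj _ q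
      have h2 := RC_deg_base (m := m.sub.sub) x
      have h3 := hdg (orb m.sub.sub.σ x)
      refine (Nat.add_le_add h2 (le_of_eq (Finset.card_eq_zero.2 ?_))).trans
        (show 2 * m.sub.sub.dg (orb m.sub.sub.σ x) + 0 ≤ 2 * Δ by omega)
      rw [filter_eq_empty_iff]
      rintro i - ⟨t, ht⟩
      cases ht
    | ring r =>
      have h2 := RC_deg_ring (m := m.sub.sub) r
      refine (Nat.add_le_add h2 (Finset.card_le_one.2 ?_)).trans (show 3 + 1 ≤ 2 * Δ by omega)
      have key : ∀ (i : Orb m.sub.sub.φ) (t : ℕ),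
          (RV.ring ((m.sub.sub.φ ^ t) i.out) : RV m.sub.sub) = RV.ring r →
          i = orb m.sub.sub.φ r := by
        intro i t ht
        injection ht with ht
        rw [← ht, Mo_orb_pow, Mo_out]
      intro i hi j hj
      rw [mem_filter] at hi hj
      obtain ⟨-, t, ht⟩ := hi
      obtain ⟨-, t', ht'⟩ := hj
      exact (key i t ht).trans (key j t' ht').symm
  · have h1 := h0.2 p rfl
    have h2 : (KN m).deg ⟨Sum.inr p, hv⟩ = 4 := h1
    omega

end Pool.Agent.H.MP_c8cc4c_co
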