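import Mathlib
import Pool.Agent.H.MP_c8cc4c_co.K.Cx

/-! # MP_c8cc4c_co, part K, file 8: the components of a drawing -/

open scoped Classical
open Finset

noncomputable section

namespace Pool.Agent.H.MP_c8cc4c_co

/-- orbits of a restricted permutation -/
theorem orb_sub_card {D : Type} [Finite D] (p : Equiv.Perm D) (X : Set D)
    (h : ∀ x, p x ∈ X ↔ x ∈ X) :
    Nat.card (Orb (p.subtypePerm h)) = (orbs p X).ncard := by
  rw [← Nat.card_coe_set_eq]
  refine Nat.card_congr (Equiv.ofBijective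
    (Quotient.lift (fun d : X => (⟨{x | p.SameCycle d x}, ⟨d, d.2, rfl⟩⟩ : orbs p X)) ?_) ⟨?_, ?_⟩)
  · intro d d' hd
    have hd' : p.SameCycle (d : D) d' := Equiv.Perm.sameCycle_subtypePerm.1 hd
    apply Subtype.ext
    ext x
    exact ⟨fun hx => hd'.symm.trans hx, fun hx => hd'.trans hx⟩
  · intro q q' hq
    obtain ⟨d, rfl⟩ := orb_surj _ q
    obtain ⟨d', rfl⟩ := orb_surj _ q'
    have h1 := congrArg Subtype.val hq
    have h2 : (d' : D) ∈ {x | p.SameCycle (d : D) x} := by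
      have h3 : {x | p.SameCycle (d : D) x} = {x | p.SameCycle (d' : D) x} := h1
      rw [h3]
      exact Equiv.Perm.SameCycle.refl p _
    exact orb_eq.2 (Equiv.Perm.sameCycle_subtypePerm.2 h2)
  · rintro ⟨_, d, hd, rfl⟩
    exact ⟨orb _ ⟨d, hd⟩, rfl⟩

variable {W : Type} {G : SimpleGraph W} {k : ℕ} (Dr : Drawing G k)

/-- reachability -/
def Rch (d x : Dr.D) : Prop :=
  Relation.ReflTransGen (fun a b => b = Dr.σ a ∨ b = Dr.α a) d x

theorem Rch_σ {d x : Dr.D} (h : Rch Dr d x) : Rch Dr d (Dr.σ x) :=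
  Relation.ReflTransGen.tail h (Or.inl rfl)

theorem Rch_α {d x : Dr.D} (h : Rch Dr d x) : Rch Dr d (Dr.α x) :=
  Relation.ReflTransGen.tail h (Or.inr rfl)

theorem Rch_pow {d x : Dr.D} (h : Rch Dr d x) (n : ℕ) : Rch Dr d ((Dr.σ ^ n) x) := by
  induction n with
  | zero => exact h
  | succ n ih =>
    rw [pow_succ', Equiv.Perm.mul_apply]
    exact Rch_σ Dr ih

theorem Rch_sc {d x y : Dr.D} (h : Rch Dr d x) (hxy : Dr.σ.SameCycle x y) : Rch Dr d y := by
  have := Dr.finD
  obtain ⟨n, hn⟩ := hxy.exists_nat_pow_eq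
  rw [← hn]
  exact Rch_pow Dr h n

theorem Rch_symm {d x : Dr.D} (h : Rch Dr d x) : Rch Dr x d := by
  induction h with
  | refl => exact Relation.ReflTransGen.refl
  | @tail a b hp hstep ih =>
    have h1 : Rch Dr b a := by
      rcases hstep with rfl | rfl
      · exact Rch_sc Dr Relation.ReflTransGen.refl
          (Equiv.Perm.sameCycle_apply_left.2 (Equiv.Perm.SameCycle.refl _ _))
      · have h2 : Rch Dr (Dr.α a) (Dr.α (Dr.α a)) := Rch_α Dr Relation.ReflTransGen.refl
        rwa [Dr.α_inv] at h2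
    exact Relation.ReflTransGen.trans h1 ih

theorem Rch_mem_σ (d0 x : Dr.D) : Dr.σ x ∈ {x | Rch Dr d0 x} ↔ x ∈ {x | Rch Dr d0 x} := by
  constructor
  · intro h
    exact Rch_sc Dr h (Equiv.Perm.sameCycle_apply_left.2 (Equiv.Perm.SameCycle.refl _ _))
  · exact fun h => Rch_σ Dr h

theorem Rch_mem_α (d0 x : Dr.D) : Dr.α x ∈ {x | Rch Dr d0 x} ↔ x ∈ {x | Rch Dr d0 x} := by
  constructor
  · intro h
    have h1 := Rch_α Dr h
    rwa [Dr.α_inv] at h1
  · exact fun h => Rch_α Dr h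

/-- the component of a dart as a combinatorial map -/
@[reducible] def cmap (d0 : Dr.D) : CMap where
  D := {x // x ∈ {x | Rch Dr d0 x}}
  finD := by
    have := Dr.finD
    exact Fintype.ofFinite _
  σ := Dr.σ.subtypePerm (Rch_mem_σ Dr d0)
  α := Dr.α.subtypePerm (Rch_mem_α Dr d0)
  α_inv := fun d => Subtype.ext (Dr.α_inv d)
  α_ne := fun d h => Dr.α_ne d (congrArg Subtype.val h)
  ne := ⟨⟨d0, Relation.ReflTransGen.refl⟩⟩
  conn := by
    have key : ∀ (x : Dr.D) (hx : Rch Dr d0 x), Relation.ReflTransGen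
        (fun a b : {x // x ∈ {x | Rch Dr d0 x}} =>
          b = Dr.σ.subtypePerm (Rch_mem_σ Dr d0) a ∨ b = Dr.α.subtypePerm (Rch_mem_α Dr d0) a)
        ⟨d0, Relation.ReflTransGen.refl⟩ ⟨x, hx⟩ := by
      intro x hx
      induction hx with
      | refl => exact Relation.ReflTransGen.refl
      | @tail a b hp hstep ih =>
        refine Relation.ReflTransGen.tail ih ?_
        rcases hstep with rfl | rfl
        · exact Or.inl rfl
        · exact Or.inr rfl
    have key2 : ∀ (x y : Dr.D) (hx : Rch Dr d0 x) (h : Rch Dr x y), Relation.ReflTransGen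
        (fun a b : {x // x ∈ {x | Rch Dr d0 x}} =>
          b = Dr.σ.subtypePerm (Rch_mem_σ Dr d0) a ∨ b = Dr.α.subtypePerm (Rch_mem_α Dr d0) a)
        ⟨x, hx⟩ ⟨y, Relation.ReflTransGen.trans hx h⟩ := by
      intro x y hx h
      induction h with
      | refl => exact Relation.ReflTransGen.refl
      | @tail a b hp hstep ih =>
        refine Relation.ReflTransGen.tail ih ?_
        rcases hstep with rfl | rfl
        · exact Or.inl rfl
        · exact Or.inr rfl
    rintro ⟨x, hx⟩ ⟨y, hy⟩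
    exact key2 x y hx (Relation.ReflTransGen.trans (Rch_symm Dr hx) hy)
  euler := by
    have := Dr.finD
    have h1 := Dr.planar d0 {x | Rch Dr d0 x} (fun x => Iff.rfl)
    rw [orb_sub_card Dr.σ _ (Rch_mem_σ Dr d0), orb_sub_card Dr.α _ (Rch_mem_α Dr d0), ← h1]
    congr 1
    rw [← orb_sub_card (Dr.α.trans Dr.σ) {x | Rch Dr d0 x} (fun x =>
      (Rch_mem_σ Dr d0 (Dr.α x)).trans (Rch_mem_α Dr d0 x))]
    rfl

/-- all darts in one orbit have the same label -/
theorem lab_sc {d d' : Dr.D} (h : Dr.σ.SameCycle d d') : Dr.lab d' = Dr.lab d := by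
  have := Dr.finD
  obtain ⟨n, rfl⟩ := h.exists_nat_pow_eq
  induction n with
  | zero => rfl
  | succ n ih =>
    rw [pow_succ', Equiv.Perm.mul_apply, Dr.lab_σ]
    exact ih (Equiv.Perm.sameCycle_pow_right.2 (Equiv.Perm.SameCycle.refl _ _))

theorem cmap_sc {d0 : Dr.D} {x y : (cmap Dr d0).D} :
    orb (cmap Dr d0).σ x = orb (cmap Dr d0).σ y ↔ Dr.σ.SameCycle x.1 y.1 := by
  rw [orb_eq]
  exact Equiv.Perm.sameCycle_subtypePerm (h := Rch_mem_σ Dr d0)

/-- the degrees of the map -/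
theorem cmap_dg [Fintype W] {Δ : ℕ} (hΔ : ∀ w, (univ.filter fun u => G.Adj w u).card ≤ Δ)
    (d0 : Dr.D) (v : Orb (cmap Dr d0).σ) : (cmap Dr d0).dg v ≤ max Δ 4 := by
  have := Dr.finD
  obtain ⟨x, rfl⟩ := orb_surj _ v
  unfold CMap.dg
  refine le_trans (Finset.card_le_card_of_injOn
    (t := univ.filter fun d : Dr.D => Dr.σ.SameCycle x.1 d) Subtype.val ?_
    (Subtype.val_injective.injOn)) ?_
  · intro d hd
    have hd' := (mem_filter.1 (Finset.mem_coe.1 hd)).2
    rw [Finset.mem_coe, mem_filter]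
    exact ⟨mem_univ _, (cmap_sc Dr).1 hd'.symm⟩
  rcases hx : Dr.lab x.1 with _ | w
  · refine le_trans ?_ (le_max_right _ _)
    have h2 := (Dr.cross x.1 hx).2
    have h3 : (univ.filter fun d : Dr.D => Dr.σ.SameCycle x.1 d) ⊆
        {x.1, Dr.σ x.1, Dr.σ (Dr.σ x.1), Dr.σ (Dr.σ (Dr.σ x.1))} := by
      intro d hd
      rw [mem_filter] at hd
      obtain ⟨n, hn⟩ := hd.2.exists_nat_pow_eq
      have key : ∀ n : ℕ, (Dr.σ ^ n) x.1 ∈
          ({x.1, Dr.σ x.1, Dr.σ (Dr.σ x.1), Dr.σ (Dr.σ (Dr.σ x.1))} : Finset Dr.D) := by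
        intro n
        induction n with
        | zero => simp
        | succ n ih =>
          rw [pow_succ', Equiv.Perm.mul_apply]
          rw [mem_insert, mem_insert, mem_insert, mem_singleton] at ih ⊢
          rcases ih with ih | ih | ih | ih
          · rw [ih]; exact Or.inr (Or.inl rfl)
          · rw [ih]; exact Or.inr (Or.inr (Or.inl rfl))
          · rw [ih]; exact Or.inr (Or.inr (Or.inr rfl))
          · rw [ih]; exact Or.inl h2
      rw [← hn]
      exact key n
    exact (card_le_card h3).trans card_le_four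
  · refine le_trans ?_ (le_max_left _ _)
    refine le_trans ?_ (hΔ w)
    -- a dart at `w` gives a neighbour
    have h2 : ∀ d : Dr.D, Dr.σ.SameCycle x.1 d → ∃ w', G.Adj w w' ∧ ∃ j,
        (∀ i < j, Dr.lab (Dr.α ((fun a => Dr.σ (Dr.σ (Dr.α a)))^[i] d)) = none) ∧
        Dr.lab (Dr.α ((fun a => Dr.σ (Dr.σ (Dr.α a)))^[j] d)) = some w' := by
      intro d hd
      have h3 : Dr.lab d = some w := (lab_sc Dr hd).trans hx
      obtain ⟨j, -, w', h4, h5, h6⟩ := Dr.trail d w h3
      exact ⟨w', h4, j, h5, h6⟩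
    let f : Dr.D → W := fun d => if hd : Dr.σ.SameCycle x.1 d then (h2 d hd).choose else w
    refine Finset.card_le_card_of_injOn f ?_ ?_
    · intro d hd
      have hd' := (mem_filter.1 (Finset.mem_coe.1 hd)).2
      rw [Finset.mem_coe, mem_filter]
      refine ⟨mem_univ _, ?_⟩
      show G.Adj w (if hd : Dr.σ.SameCycle x.1 d then (h2 d hd).choose else w)
      rw [dif_pos hd']
      exact (h2 d hd').choose_spec.1
    · intro d hd d' hd' hdd
      have e1 := (mem_filter.1 (Finset.mem_coe.1 hd)).2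
      have e2 := (mem_filter.1 (Finset.mem_coe.1 hd')).2
      have f1 : f d = (h2 d e1).choose := dif_pos e1
      have f2 : f d' = (h2 d' e2).choose := dif_pos e2
      have s1 := (h2 d e1).choose_spec
      have s2 := (h2 d' e2).choose_spec
      rw [← f1] at s1
      rw [← f2, ← hdd] at s2
      obtain ⟨z, -, hz⟩ := Dr.edges w (f d) s1.1
      rw [hz d ⟨(lab_sc Dr e1).trans hx, s1.2⟩, hz d' ⟨(lab_sc Dr e2).trans hx, s2.2⟩]

end Pool.Agent.H.MP_c8cc4c_co
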