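import Mathlib
import Pool.Agent.H.MP_c8cc4c_co.K.Draw
import Pool.Agent.H.MP_c8cc4c_co.B.Near

/-! # MP_c8cc4c_co, part K, file 9: conversion of drawings -/

open scoped Classical
open Finset

noncomputable section

namespace Pool.Agent.H.MP_c8cc4c_co

variable {W : Type} {G : SimpleGraph W} {k : ℕ} (Dr : Drawing G k)

/-- the vertex of the complex at the start of the dart `x` -/
def KP (d0 x : Dr.D) (hx : Rch Dr d0 x) : (KN (cmap Dr d0)).V :=
  Kι (cmap Dr d0) (orb (cmap Dr d0).σ ⟨x, hx⟩)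

theorem KP_eq {d0 x y : Dr.D} {hx : Rch Dr d0 x} {hy : Rch Dr d0 y} :
    KP Dr d0 x hx = KP Dr d0 y hy ↔ Dr.σ.SameCycle x y := by
  unfold KP
  rw [(Kι_inj _).eq_iff, cmap_sc]

theorem KP_near {d0 x : Dr.D} (hx : Rch Dr d0 x) :
    Near (KN (cmap Dr d0)).graph Set.univ 4 (KP Dr d0 x hx)
      (KP Dr d0 (Dr.α x) (Rch_α Dr hx)) :=
  KN_near (cmap Dr d0) ⟨x, hx⟩

theorem Rch_iter {d0 x : Dr.D} (hx : Rch Dr d0 x) (j : ℕ) :
    Rch Dr d0 ((fun a => Dr.σ (Dr.σ (Dr.α a)))^[j] x) := by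
  induction j with
  | zero => exact hx
  | succ j ih =>
    rw [Function.iterate_succ_apply']
    exact Rch_σ Dr (Rch_σ Dr (Rch_α Dr ih))

theorem KP_iter {d0 x : Dr.D} (hx : Rch Dr d0 x) (j : ℕ) :
    Near (KN (cmap Dr d0)).graph Set.univ (4 * j) (KP Dr d0 x hx)
      (KP Dr d0 ((fun a => Dr.σ (Dr.σ (Dr.α a)))^[j] x) (Rch_iter Dr hx j)) := by
  induction j with
  | zero => exact near_refl trivial
  | succ j ih =>
    have h1 := near_trans ih (KP_near Dr (Rch_iter Dr hx j))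
    have h2 : KP Dr d0 ((fun a => Dr.σ (Dr.σ (Dr.α a)))^[j + 1] x) (Rch_iter Dr hx (j + 1)) =
        KP Dr d0 (Dr.α ((fun a => Dr.σ (Dr.σ (Dr.α a)))^[j] x))
          (Rch_α Dr (Rch_iter Dr hx j)) := by
      rw [KP_eq, Function.iterate_succ_apply']
      exact Equiv.Perm.sameCycle_apply_left.2 (Equiv.Perm.sameCycle_apply_left.2
        (Equiv.Perm.SameCycle.refl _ _))
    rw [h2, show 4 * (j + 1) = 4 * j + 4 by ring]
    exact h1

/-- the trail of an edge -/
theorem trail_edge {w w' : W} (h : G.Adj w w') : ∃ d, Dr.lab d = some w ∧ ∃ j ≤ k,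
    Dr.lab (Dr.α ((fun a => Dr.σ (Dr.σ (Dr.α a)))^[j] d)) = some w' := by
  obtain ⟨d, ⟨hd, j', h1, h2⟩, -⟩ := Dr.edges w w' h
  obtain ⟨j, hj, w'', -, h4, h5⟩ := Dr.trail d w hd
  have hjj : j = j' := by
    rcases lt_trichotomy j j' with h6 | h6 | h6
    · have h7 := h1 j h6
      rw [h5] at h7
      cases h7
    · exact h6
    · have h7 := h4 j' h6
      rw [h2] at h7
      cases h7
  exact ⟨d, hd, j, hj, hjj ▸ h2⟩

/-- the component of a vertex -/
def cX (w : W) : Set Dr.D := {x | ∃ d, Dr.lab d = some w ∧ Rch Dr d x}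

theorem cX_eq {w : W} {d : Dr.D} (hd : Dr.lab d = some w) : cX Dr w = {x | Rch Dr d x} := by
  ext x
  constructor
  · rintro ⟨d', hd', hx⟩
    have h1 : Rch Dr d d' := Rch_sc Dr Relation.ReflTransGen.refl (Dr.one_orbit d d' w hd hd')
    exact Relation.ReflTransGen.trans h1 hx
  · exact fun hx => ⟨d, hd, hx⟩

theorem cX_adj {w w' : W} (h : G.Adj w w') : cX Dr w = cX Dr w' := by
  obtain ⟨d, hd, j, -, hj⟩ := trail_edge Dr h
  rw [cX_eq Dr hd, cX_eq Dr hj]
  have h1 : Rch Dr d (Dr.α ((fun a => Dr.σ (Dr.σ (Dr.α a)))^[j] d)) :=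
    Rch_α Dr (Rch_iter Dr Relation.ReflTransGen.refl j)
  ext x
  exact ⟨fun hx => Relation.ReflTransGen.trans (Rch_symm Dr h1) hx,
    fun hx => Relation.ReflTransGen.trans h1 hx⟩

/-- the book embedding of one component -/
theorem comp_book [Fintype W] {Δ b : ℕ} (h1 : GlueSphereStmt) (h2 : GlueQuadStmt)
    (h3 : GlueDegStmt) (hΔ : ∀ w, (univ.filter fun u => G.Adj w u).card ≤ Δ)
    (hP : PowersBound (2 * max Δ 4) (4 * (k + 1)) b) (hb : 0 < b) (X : Set Dr.D) :
    ∃ (p : W → ℕ) (pg : Sym2 W → Fin b),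
      (∀ w w', cX Dr w = X → cX Dr w' = X → p w = p w' → w = w') ∧
      ∀ x y u w, cX Dr x = X → cX Dr y = X → G.Adj x u → G.Adj y w → p x < p y → p y < p u →
        p u < p w → pg s(x, u) ≠ pg s(y, w) := by
  by_cases hX : ∃ w0 d0, Dr.lab d0 = some w0 ∧ cX Dr w0 = X
  · obtain ⟨w0, d0, hd0, hX0⟩ := hX
    have hXe : X = {x | Rch Dr d0 x} := hX0 ▸ cX_eq Dr hd0
    have hself : Rch Dr d0 d0 := Relation.ReflTransGen.refl
    -- vertices in the component
    have hdart : ∀ w, cX Dr w = X → ∃ d, Dr.lab d = some w ∧ Rch Dr d0 d := by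
      intro w hw
      have h4 : d0 ∈ cX Dr w := by
        rw [hw, hXe]
        exact hself
      obtain ⟨d, hd, h5⟩ := h4
      exact ⟨d, hd, Rch_symm Dr h5⟩
    let g : W → (KN (cmap Dr d0)).V := fun w =>
      if h : ∃ d, Dr.lab d = some w ∧ Rch Dr d0 d then KP Dr d0 h.choose h.choose_spec.2
      else KP Dr d0 d0 hself
    have hg : ∀ w d (hd : Dr.lab d = some w) (hR : Rch Dr d0 d), g w = KP Dr d0 d hR := by
      intro w d hd hR
      have h4 : ∃ d, Dr.lab d = some w ∧ Rch Dr d0 d := ⟨d, hd, hR⟩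
      have h5 : g w = KP Dr d0 h4.choose h4.choose_spec.2 := dif_pos h4
      rw [h5, KP_eq]
      exact Dr.one_orbit _ _ w h4.choose_spec.1 hd
    obtain ⟨pos, page, hpos, hpage⟩ := hP (KN (cmap Dr d0)) (KN_sphere h1 _) (KN_quad h2 _)
      (KN_simple _) (KN_deg h3 _ (le_max_right _ _) (cmap_dg Dr hΔ d0))
    have hnear : ∀ x u, cX Dr x = X → G.Adj x u →
        Near (KN (cmap Dr d0)).graph Set.univ (4 * (k + 1)) (g x) (g u) := by
      intro x u hx hxu
      obtain ⟨d, hd, j, hj, hj'⟩ := trail_edge Dr hxu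
      have hR : Rch Dr d0 d := by
        obtain ⟨d', hd', hR'⟩ := hdart x hx
        exact Rch_sc Dr hR' (Dr.one_orbit d' d x hd' hd)
      rw [hg x d hd hR, hg u _ hj' (Rch_α Dr (Rch_iter Dr hR j))]
      exact near_mono (near_trans (KP_iter Dr hR j) (KP_near Dr (Rch_iter Dr hR j)))
        (by omega) (le_refl _)
    refine ⟨fun w => pos (g w), fun e => page (e.map g), ?_, ?_⟩
    · intro w w' hw hw' hp
      obtain ⟨d, hd, hR⟩ := hdart w hw
      obtain ⟨d', hd', hR'⟩ := hdart w' hw'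
      have h4 : g w = g w' := hpos hp
      rw [hg w d hd hR, hg w' d' hd' hR', KP_eq] at h4
      have h5 := lab_sc Dr h4
      rw [hd, hd'] at h5
      exact (Option.some.inj h5).symm
    · intro x y u w hx hy hxu hyw l1 l2 l3
      exact hpage (g x) (g y) (g u) (g w) (hnear x u hx hxu) (hnear y w hy hyw) l1 l2 l3
  · refine ⟨fun w => Fintype.equivFin W w, fun _ => ⟨0, hb⟩, ?_, ?_⟩
    · intro w w' _ _ hp
      exact (Fintype.equivFin W).injective (Fin.ext hp)
    · intro x y u w hx _ hxu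
      exfalso
      obtain ⟨d, hd, -⟩ := trail_edge Dr hxu
      exact hX ⟨x, d, hd, hx⟩

theorem conversion (h1 : GlueSphereStmt) (h2 : GlueQuadStmt) (h3 : GlueDegStmt) :
    ConversionStmt := by
  intro k Δ b W _ G hΔ hK hP hb
  obtain ⟨Dr⟩ := hK
  have := Dr.finD
  choose p pg hp hpg using comp_book Dr h1 h2 h3 hΔ hP hb
  let B : ℕ := (∑ X : Set Dr.D, ∑ w : W, p X w) + 1
  have hB : ∀ X w, p X w < B := by
    intro X w
    have h4 : p X w ≤ ∑ w : W, p X w :=
      Finset.single_le_sum (f := fun w => p X w) (fun _ _ => Nat.zero_le _) (mem_univ w)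
    have h5 : (∑ w : W, p X w) ≤ ∑ X : Set Dr.D, ∑ w : W, p X w :=
      Finset.single_le_sum (f := fun X => ∑ w : W, p X w) (fun _ _ => Nat.zero_le _) (mem_univ X)
    exact Nat.lt_succ_of_le (h4.trans h5)
  let q : Set Dr.D → ℕ := fun X => Fintype.equivFin (Set Dr.D) X
  have hq : ∀ X Y, q X = q Y → X = Y := by
    intro X Y h
    exact (Fintype.equivFin (Set Dr.D)).injective (Fin.ext h)
  have hlt : ∀ a c s t : ℕ, s < B → t < B → a * B + s ≤ c * B + t → a ≤ c := by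
    intro a c s t hs ht h
    by_contra hac
    push Not at hac
    have h4 : (c + 1) * B ≤ a * B := Nat.mul_le_mul_right _ hac
    have h5 : (c + 1) * B = c * B + B := by ring
    omega
  refine ⟨fun w => q (cX Dr w) * B + p (cX Dr w) w,
    fun e => pg (cX Dr (Quot.out e).1) e, ?_, ?_⟩
  · intro w w' h
    have h' : q (cX Dr w) * B + p (cX Dr w) w = q (cX Dr w') * B + p (cX Dr w') w' := h
    have h4 : q (cX Dr w) = q (cX Dr w') :=
      le_antisymm (hlt _ _ _ _ (hB _ _) (hB _ _) h'.le) (hlt _ _ _ _ (hB _ _) (hB _ _) h'.ge)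
    have h5 := hq _ _ h4
    rw [h5] at h'
    exact hp (cX Dr w') w w' h5 rfl (by omega)
  · intro x y u w hxu hyw
    have hpage : ∀ s t, G.Adj s t →
        pg (cX Dr (Quot.out s(s, t)).1) s(s, t) = pg (cX Dr s) s(s, t) := by
      intro s t hst
      have h4 : (Quot.out s(s, t)).1 = s ∨ (Quot.out s(s, t)).1 = t :=
        Sym2.mem_iff.1 (Sym2.out_fst_mem s(s, t))
      rcases h4 with h4 | h4
      · rw [h4]
      · rw [h4, cX_adj Dr hst]
    have h4 := cX_adj Dr hxu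
    have h5 := cX_adj Dr hyw
    show q (cX Dr x) * B + p (cX Dr x) x < q (cX Dr y) * B + p (cX Dr y) y →
      q (cX Dr y) * B + p (cX Dr y) y < q (cX Dr u) * B + p (cX Dr u) u →
      q (cX Dr u) * B + p (cX Dr u) u < q (cX Dr w) * B + p (cX Dr w) w →
      pg (cX Dr (Quot.out s(x, u)).1) s(x, u) ≠ pg (cX Dr (Quot.out s(y, w)).1) s(y, w)
    intro l1 l2 l3
    rw [hpage x u hxu, hpage y w hyw]
    rw [← h4] at l2 l3
    rw [← h5] at l3
    have h6 : q (cX Dr x) = q (cX Dr y) :=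
      le_antisymm (hlt _ _ _ _ (hB _ _) (hB _ _) l1.le) (hlt _ _ _ _ (hB _ _) (hB _ _) l2.le)
    have h7 := hq _ _ h6
    rw [h7] at l1 l2 l3
    rw [h7]
    exact hpg (cX Dr y) x y u w h7 rfl hxu hyw (by omega) (by omega) (by omega)

end Pool.Agent.H.MP_c8cc4c_co
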